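import Pool.Agent.T2H98.UK.Stm

set_option autoImplicit false

open MeasureTheory Filter Topology Finset

namespace Pool.Agent.T2H98.UK

open Pool.Agent.T2H98.RT (P tw QS)
open Pool.Agent.T2H98.EP (pr zp EU JE AA MK cK gr vJME)
open Pool.Agent.T2H98.EF (H JH cc pw C)
open Pool.Agent.H306R2 (lc dv aF)

theorem pAAK (hMEL : S_MEL) (hJEK : S_JEK) : S_AAK := by
  intro k B M hk hB hM hPW k' y hy h1 h2
  have hk' : 0 < k' := by linarith
  have hMr : (0 : ℝ) < (M : ℝ) := by exact_mod_cast hM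
  have t1 := hMEL k y hk hy
  have t2 := hMEL k' y hk' hy
  have t3 := hMEL (M : ℝ) y hMr hy
  have hint : ∀ (q T : ℝ), 0 < q → 0 < T → Integrable (fun θ : ℕ → ℝ => JE θ q y T) P := by
    intro q T hq hT
    obtain ⟨D, hD, _, _, h3⟩ := vJME q y hq
    refine Integrable.of_bound (C := D) (h3 T hT).1.aestronglyMeasurable (Eventually.of_forall fun θ => ?_)
    obtain ⟨h4, h5⟩ := (h3 T hT).2 θ
    rw [Real.norm_eq_abs, abs_of_nonneg h4]
    exact h5
  have tl : Tendsto (fun T : ℝ => |(∫ θ, JE θ k y T ∂P) - ∫ θ, JE θ k' y T ∂P|) atTop (𝓝 |AA k y - AA k' y|) :=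
    (t1.sub t2).abs
  have tr : Tendsto (fun T : ℝ => B * (k - k') * (1 + ∫ θ, JE θ (M : ℝ) y T ∂P)) atTop
      (𝓝 (B * (k - k') * (1 + AA (M : ℝ) y))) := (t3.const_add 1).const_mul _
  refine le_of_tendsto_of_tendsto tl tr ?_
  filter_upwards [eventually_gt_atTop 0] with T hT
  rw [← integral_sub (hint k T hk hT) (hint k' T hk' hT)]
  refine (abs_integral_le_integral_abs).trans ?_
  have e1 : B * (k - k') * (1 + ∫ θ, JE θ (M : ℝ) y T ∂P) = ∫ θ, B * (k - k') * (1 + JE θ (M : ℝ) y T) ∂P := by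
    rw [integral_const_mul, integral_add (integrable_const _) (hint _ T hMr hT)]
    simp
  rw [e1]
  refine integral_mono ((hint k T hk hT).sub (hint k' T hk' hT)).abs
    (((integrable_const _).add (hint _ T hMr hT)).const_mul _) fun θ => ?_
  exact (hJEK k B M hk hB hM hPW θ k' T y hT h1 h2).1

end Pool.Agent.T2H98.UK
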