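import Pool.Agent.T2H98.UK.Stm

/-!
# UK / AAMON: `AA k y` is monotone in `k` (helper79)
-/

set_option autoImplicit false

open MeasureTheory Filter Topology Finset

namespace Pool.Agent.T2H98.UK

open Pool.Agent.T2H98.EP (pr AA)
open Pool.Agent.H306R2 (lc lc_nonneg lc_mono)

/-- AAMON -/
theorem pAAMON : S_AAMON := by
  intro k κ y hk hkκ
  have hκ : 0 < κ := lt_of_lt_of_le hk hkκ
  unfold AA
  refine prod_le_prod (fun p _ => tsum_nonneg fun m => by positivity) fun p hp => ?_
  have hp' : p.Prime := (mem_filter.1 hp).2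
  refine Summable.tsum_le_tsum (fun m => ?_) (Pool.Agent.T2H98.EP.AAL.E_summable hk hp')
    (Pool.Agent.T2H98.EP.AAL.E_summable hκ hp')
  have h0 := lc_nonneg hk.le m
  have h1 := lc_mono hk.le hkκ m
  have h2 : lc k m ^ 2 ≤ lc κ m ^ 2 := pow_le_pow_left₀ h0 h1 2
  exact mul_le_mul_of_nonneg_right h2 (by positivity)

end Pool.Agent.T2H98.UK
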