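import Pool.Agent.T2H98.UK.Stm

/-! Package GRK of project UK (helper98), by helper94: almost sure convergence along the grid, also in the order. -/

set_option autoImplicit false

open MeasureTheory Filter Topology Finset

namespace Pool.Agent.T2H98.UK

open Pool.Agent.T2H98.RT (P tw QS pAE)
open Pool.Agent.T2H98.EP (pr zp EU JE AA MK cK gr vVARL vJME)
open Pool.Agent.T2H98.EP.GRE
open Pool.Agent.H306R2 (lc dv aF)

namespace GRK

/-- the bound of the sum of the variances -/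
lemma bound4 {C η : ℝ} (hC : 0 < C) (hη : 0 < η) (hη1 : η ≤ 1) {a : ℕ} (ha : 32 / η ≤ a) (j : ℕ) :
    ∑ i ∈ FF η a j, 2 / ((max j 1 : ℕ) : ℝ) ^ a * (C * (gr η i : ℝ) ^ (η / 16)) ≤
      4 * C * 2 ^ a * (1 / ((j : ℝ) + 1) ^ 4) := by
  have hj1 : (1 : ℝ) ≤ (j : ℝ) + 1 := by
    have : (0 : ℝ) ≤ j := Nat.cast_nonneg j
    linarith
  obtain ⟨x, hx⟩ : ∃ x : ℝ, x = ((j : ℝ) + 1) ^ a := ⟨_, rfl⟩
  have hx1 : 1 ≤ x := hx ▸ one_le_pow₀ hj1
  have hx0 : 0 < x := by linarith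
  set m : ℝ := ((max j 1 : ℕ) : ℝ) with hm
  have hm1 : (1 : ℝ) ≤ m := by rw [hm]; exact_mod_cast le_max_right _ _
  have hmj : (j : ℝ) ≤ m := by rw [hm]; exact_mod_cast le_max_left _ _
  have hm2 : ((j : ℝ) + 1) / 2 ≤ m := by linarith
  have hma : x / 2 ^ a ≤ m ^ a := by
    rw [hx, ← div_pow]
    exact pow_le_pow_left₀ (by positivity) hm2 a
  have hma0 : 0 < m ^ a := by positivity
  -- every term
  have hterm : ∀ i ∈ FF η a j,
      2 / m ^ a * (C * (gr η i : ℝ) ^ (η / 16)) ≤ 2 / m ^ a * (C * x ^ (η / 8)) := by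
    intro i hi
    rw [mem_FF, ← hx] at hi
    have h2 : (gr η i : ℝ) ≤ x ^ (2 : ℝ) :=
      hi.2.2.trans (Real.rpow_le_rpow_of_exponent_le hx1 (by linarith))
    have h3 : (gr η i : ℝ) ^ (η / 16) ≤ x ^ (η / 8) := by
      refine (Real.rpow_le_rpow (Nat.cast_nonneg _) h2 (by positivity)).trans (le_of_eq ?_)
      rw [← Real.rpow_mul hx0.le]
      congr 1
      ring
    gcongr
  refine (Finset.sum_le_card_nsmul _ _ _ hterm).trans ?_
  rw [nsmul_eq_mul]
  have hcard : ((FF η a j).card : ℝ) ≤ 2 * x ^ (1 - η / 4) := by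
    have h1 : (FF η a j).card ≤ ⌊2 * x ^ (1 - η / 4)⌋₊ := by
      unfold FF
      refine (Finset.card_filter_le _ _).trans ?_
      rw [Nat.card_Icc, Nat.add_sub_cancel, hx]
    have h2 : (⌊2 * x ^ (1 - η / 4)⌋₊ : ℝ) ≤ 2 * x ^ (1 - η / 4) := Nat.floor_le (by positivity)
    have h3 : ((FF η a j).card : ℝ) ≤ (⌊2 * x ^ (1 - η / 4)⌋₊ : ℝ) := by exact_mod_cast h1
    linarith
  have h1 : ((FF η a j).card : ℝ) * (2 / m ^ a * (C * x ^ (η / 8))) ≤
      2 * x ^ (1 - η / 4) * (2 / m ^ a * (C * x ^ (η / 8))) :=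
    mul_le_mul_of_nonneg_right hcard (by positivity)
  refine h1.trans ?_
  have h2 : 2 * x ^ (1 - η / 4) * (2 / m ^ a * (C * x ^ (η / 8))) =
      4 * C * x ^ (1 - η / 8) / m ^ a := by
    rw [show (1 - η / 8) = (1 - η / 4) + η / 8 by ring, Real.rpow_add hx0]
    ring
  rw [h2]
  have h3 : 4 * C * x ^ (1 - η / 8) / m ^ a ≤ 4 * C * x ^ (1 - η / 8) / (x / 2 ^ a) :=
    div_le_div_of_nonneg_left (by positivity) (by positivity) hma
  refine h3.trans ?_
  have h4 : 4 * C * x ^ (1 - η / 8) / (x / 2 ^ a) = 4 * C * 2 ^ a * x ^ (-(η / 8)) := by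
    rw [show (1 - η / 8) = 1 + (-(η / 8)) by ring, Real.rpow_add hx0, Real.rpow_one]
    field_simp
  rw [h4]
  refine mul_le_mul_of_nonneg_left ?_ (by positivity)
  have h5 : x ^ (-(η / 8)) = ((j : ℝ) + 1) ^ (-(a * (η / 8))) := by
    rw [hx, ← Real.rpow_natCast, ← Real.rpow_mul (by linarith)]
    congr 1
    ring
  have h6 : (1 : ℝ) / ((j : ℝ) + 1) ^ 4 = ((j : ℝ) + 1) ^ (-(4 : ℝ)) := by
    rw [Real.rpow_neg (by linarith), one_div]
    congr 1
    rw [← Real.rpow_natCast]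
    norm_num
  rw [h5, h6]
  refine Real.rpow_le_rpow_of_exponent_le hj1 ?_
  have h7 : 32 / η * (η / 8) ≤ a * (η / 8) := mul_le_mul_of_nonneg_right ha (by positivity)
  have h8 : 32 / η * (η / 8) = 4 := by field_simp; norm_num
  linarith

/-- the order number `l` at the level `j` -/
noncomputable def ko (j l : ℕ) : ℝ := ((max l 1 : ℕ) : ℝ) / ((j : ℝ) + 1)

lemma ko_pos (j l : ℕ) : 0 < ko j l := by
  unfold ko
  have h1 : (0 : ℝ) < ((max l 1 : ℕ) : ℝ) := by
    have : 0 < max l 1 := by omega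
    exact_mod_cast this
  positivity

lemma ko_eq (j : ℕ) {l : ℕ} (hl : 1 ≤ l) : ko j l = (l : ℝ) / ((j : ℝ) + 1) := by
  rw [ko, max_eq_left hl]

lemma ko_le {j l κ : ℕ} (hl : 1 ≤ l) (h : l ≤ κ * (j + 1)) : ko j l ≤ κ := by
  rw [ko_eq j hl, div_le_iff₀ (by positivity)]
  exact_mod_cast h

end GRK

open GRK in
theorem pGRK (hQSU : S_QSU) : S_GRK := by
  classical
  intro η a κ hη hη1 ha hκ
  have hκ1 : (1 : ℝ) ≤ κ := by exact_mod_cast hκ
  obtain ⟨C, hC, hqs⟩ := hQSU κ hκ1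
  obtain ⟨C', hC'⟩ : ∃ C' : ℝ, C' = C / (η / (16 * C)) ^ C := ⟨_, rfl⟩
  have hC'0 : 0 < C' := by rw [hC']; positivity
  have hm1 : ∀ j : ℕ, (1 : ℝ) ≤ ((max j 1 : ℕ) : ℝ) := fun j => by exact_mod_cast le_max_right _ _
  have ht1 : ∀ j : ℕ, (1 : ℝ) ≤ ((max j 1 : ℕ) : ℝ) ^ a := fun j => one_le_pow₀ (hm1 j)
  have ht0 : ∀ j : ℕ, (0 : ℝ) < ((max j 1 : ℕ) : ℝ) ^ a := fun j => by linarith [ht1 j]
  have hXc : ∀ j n : ℕ, Continuous (fun θ : ℕ → ℝ =>
      JE θ (ko j n.unpair.2) (gr η n.unpair.1) (((max j 1 : ℕ) : ℝ) ^ a) -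
        AA (ko j n.unpair.2) (gr η n.unpair.1)) := fun j n => by
    obtain ⟨B, _, _, _, h3⟩ := vJME (ko j n.unpair.2) (gr η n.unpair.1) (ko_pos _ _)
    exact (h3 _ (ht0 j)).1.sub continuous_const
  have hmain := pAE (ℕ → ℝ) P
    (fun j n θ => JE θ (ko j n.unpair.2) (gr η n.unpair.1) (((max j 1 : ℕ) : ℝ) ^ a) -
      AA (ko j n.unpair.2) (gr η n.unpair.1))
    (fun j n => 2 / ((max j 1 : ℕ) : ℝ) ^ a * (C' * (gr η n.unpair.1 : ℝ) ^ (η / 16)))
    (fun j => ((FF η a j) ×ˢ (Icc 1 (κ * (j + 1)))).image fun q => Nat.pair q.1 q.2)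
    (fun j n => (hXc j n).measurable)
    (fun j n => by
      obtain ⟨B, hB, _, _, h3⟩ := vJME (ko j n.unpair.2) (gr η n.unpair.1) (ko_pos _ _)
      refine Integrable.of_bound (C := (B + |AA (ko j n.unpair.2) (gr η n.unpair.1)|) ^ 2)
        ((hXc j n).pow 2).aestronglyMeasurable ?_
      refine Eventually.of_forall fun θ => ?_
      rw [Real.norm_eq_abs, abs_pow]
      refine pow_le_pow_left₀ (abs_nonneg _) ?_ 2
      refine (abs_sub _ _).trans ?_
      obtain ⟨h1, h2⟩ := (h3 _ (ht0 j)).2 θ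
      rw [abs_of_nonneg h1]
      linarith)
    (fun j n hn => by
      obtain ⟨q, hq, rfl⟩ := Finset.mem_image.mp hn
      obtain ⟨hq1, hq2⟩ := Finset.mem_product.mp hq
      rw [mem_FF] at hq1
      rw [Finset.mem_Icc] at hq2
      simp only [Nat.unpair_pair]
      refine (vVARL (ko j q.2) (gr η q.1) _ (C * Real.log (gr η q.1) ^ C) (ko_pos _ _) (ht0 j)
        (fun K => hqs _ _ K (ko_pos _ _) (ko_le hq2.1 hq2.2) hq1.2.1)).trans ?_
      refine mul_le_mul_of_nonneg_left ?_ (by have := ht0 j; positivity)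
      rw [hC']
      exact log_bound hC hη hq1.2.1)
    (by
      have hsum : ∀ j : ℕ, ∑ n ∈ ((FF η a j) ×ˢ (Icc 1 (κ * (j + 1)))).image
          (fun q => Nat.pair q.1 q.2),
          2 / ((max j 1 : ℕ) : ℝ) ^ a * (C' * (gr η n.unpair.1 : ℝ) ^ (η / 16)) ≤
          4 * C' * 2 ^ a * κ * (1 / ((j : ℝ) + 1) ^ 2) := by
        intro j
        have hj1 : (1 : ℝ) ≤ (j : ℝ) + 1 := by
          have : (0 : ℝ) ≤ j := Nat.cast_nonneg j
          linarith
        rw [Finset.sum_image (by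
          intro q _ q' _ h
          have h1 := Nat.pair_eq_pair.mp h
          exact Prod.ext h1.1 h1.2)]
        simp only [Nat.unpair_pair]
        rw [Finset.sum_product]
        simp only [Finset.sum_const, Nat.card_Icc, Nat.add_sub_cancel, nsmul_eq_mul]
        rw [← Finset.mul_sum]
        have h2 := bound4 hC'0 hη hη1 ha j
        refine (mul_le_mul_of_nonneg_left h2 (Nat.cast_nonneg _)).trans ?_
        push_cast
        have h3 : (κ : ℝ) * ((j : ℝ) + 1) * (4 * C' * 2 ^ a * (1 / ((j : ℝ) + 1) ^ 4)) =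
            4 * C' * 2 ^ a * κ * (1 / ((j : ℝ) + 1) ^ 3) := by
          field_simp
        rw [h3]
        refine mul_le_mul_of_nonneg_left ?_ (by positivity)
        exact one_div_le_one_div_of_le (by positivity) (pow_le_pow_right₀ hj1 (by norm_num))
      refine Summable.of_nonneg_of_le (fun j => Finset.sum_nonneg fun i _ => by positivity)
        hsum ?_
      refine Summable.mul_left _ ?_
      have h1 : Summable (fun n : ℕ => 1 / (n : ℝ) ^ 2) :=
        Real.summable_one_div_nat_pow.2 (by norm_num)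
      have h2 := (summable_nat_add_iff 1).2 h1
      refine h2.congr fun n => ?_
      push_cast
      rfl)
  filter_upwards [hmain] with θ hθ ε hε
  filter_upwards [hθ ε hε, eventually_ge_atTop 1] with j hj hj1 i hi hij l hl hlk
  have hmax : max j 1 = j := max_eq_left hj1
  rw [hmax] at hj
  have hjj : (1 : ℝ) ≤ (j : ℝ) + 1 := by
    have : (0 : ℝ) ≤ j := Nat.cast_nonneg j
    linarith
  have hx1 : (1 : ℝ) ≤ ((j : ℝ) + 1) ^ a := one_le_pow₀ hjj
  have hmem : i ∈ FF η a j := by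
    rw [mem_FF]
    refine ⟨⟨?_, Nat.le_floor (range_le hη hη1 hx1 hij)⟩, hi, hij⟩
    by_contra h0
    have h0' : i = 0 := by omega
    subst h0'
    have : gr η 0 = 0 := by
      unfold Pool.Agent.T2H98.EP.gr
      rw [Nat.cast_zero, Real.zero_rpow (by linarith), Nat.floor_zero]
    omega
  have hfin := hj (Nat.pair i l) (Finset.mem_image.mpr ⟨(i, l),
    Finset.mem_product.mpr ⟨hmem, Finset.mem_Icc.mpr ⟨hl, hlk⟩⟩, rfl⟩)
  simp only [Nat.unpair_pair] at hfin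
  rw [ko_eq j hl] at hfin
  exact hfin

end Pool.Agent.T2H98.UK
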