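import Pool.Agent.T2H98.UK.Stm
import Pool.Agent.T2H98.EF.GRM
import Pool.Agent.T2H98.EP.GRE

/-! # Package GRMK (helper24): almost sure decay of the harmonics along the grid, for all orders of the grid of orders -/

set_option autoImplicit false

open MeasureTheory Filter Topology Finset

namespace Pool.Agent.T2H98.UK

open Pool.Agent.T2H98.RT (P tw QS S_MUL S_OR S_AE)
open Pool.Agent.T2H98.EP (pr zp EU JE AA MK cK gr S_JME S_AAL S_MER)
open Pool.Agent.T2H98.EF (H JH cc pw C S_VARM S_MC)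
open Pool.Agent.H306R2 (lc dv aF)
open Pool.Agent.T2H98.EP.GRE (log_bound range_le FF mem_FF bound)
open Pool.Agent.T2H98.EF.GRM (AA_bound)

namespace GRMK

/-- the bound of the sum of the variances, with more to spare -/
lemma bound3 {C η : ℝ} (hC : 0 < C) (hη : 0 < η) (_hη1 : η ≤ 1) {a : ℕ} (ha : 32 / η ≤ a) (j : ℕ) :
    ∑ i ∈ FF η a j, 2 / ((max j 1 : ℕ) : ℝ) ^ a * (C * (gr η i : ℝ) ^ (η / 16)) ≤
      4 * C * 2 ^ a * (1 / ((j : ℝ) + 1) ^ 3) := by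
  have hj1 : (1 : ℝ) ≤ (j : ℝ) + 1 := by
    have : (0 : ℝ) ≤ j := Nat.cast_nonneg j
    linarith
  obtain ⟨x, hx⟩ : ∃ x : ℝ, x = ((j : ℝ) + 1) ^ a := ⟨_, rfl⟩
  have hx1 : 1 ≤ x := hx ▸ one_le_pow₀ hj1
  have hx0 : 0 < x := by linarith
  set m : ℝ := ((max j 1 : ℕ) : ℝ) with hm
  have hm1 : (1 : ℝ) ≤ m := by rw [hm]; exact_mod_cast le_max_right _ _
  have hmj : (j : ℝ) ≤ m := by rw [hm]; exact_mod_cast le_max_left _ _
  have hm2 : ((j : ℝ) + 1) / 2 ≤ m := by linarith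
  have hma : x / 2 ^ a ≤ m ^ a := by
    rw [hx, ← div_pow]
    exact pow_le_pow_left₀ (by positivity) hm2 a
  have hma0 : 0 < m ^ a := by positivity
  -- every term
  have hterm : ∀ i ∈ FF η a j,
      2 / m ^ a * (C * (gr η i : ℝ) ^ (η / 16)) ≤ 2 / m ^ a * (C * x ^ (η / 8)) := by
    intro i hi
    rw [mem_FF, ← hx] at hi
    have h2 : (gr η i : ℝ) ≤ x ^ (2 : ℝ) :=
      hi.2.2.trans (Real.rpow_le_rpow_of_exponent_le hx1 (by linarith))
    have h3 : (gr η i : ℝ) ^ (η / 16) ≤ x ^ (η / 8) := by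
      refine (Real.rpow_le_rpow (Nat.cast_nonneg _) h2 (by positivity)).trans (le_of_eq ?_)
      rw [← Real.rpow_mul hx0.le]
      congr 1
      ring
    gcongr
  refine (Finset.sum_le_card_nsmul _ _ _ hterm).trans ?_
  rw [nsmul_eq_mul]
  have hcard : ((FF η a j).card : ℝ) ≤ 2 * x ^ (1 - η / 4) := by
    have h1 : (FF η a j).card ≤ ⌊2 * x ^ (1 - η / 4)⌋₊ := by
      unfold FF
      refine (Finset.card_filter_le _ _).trans ?_
      rw [Nat.card_Icc, Nat.add_sub_cancel, hx]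
    have h2 : (⌊2 * x ^ (1 - η / 4)⌋₊ : ℝ) ≤ 2 * x ^ (1 - η / 4) := Nat.floor_le (by positivity)
    have h3 : ((FF η a j).card : ℝ) ≤ (⌊2 * x ^ (1 - η / 4)⌋₊ : ℝ) := by exact_mod_cast h1
    linarith
  have h1 : ((FF η a j).card : ℝ) * (2 / m ^ a * (C * x ^ (η / 8))) ≤
      2 * x ^ (1 - η / 4) * (2 / m ^ a * (C * x ^ (η / 8))) :=
    mul_le_mul_of_nonneg_right hcard (by positivity)
  refine h1.trans ?_
  have h2 : 2 * x ^ (1 - η / 4) * (2 / m ^ a * (C * x ^ (η / 8))) =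
      4 * C * x ^ (1 - η / 8) / m ^ a := by
    rw [show (1 - η / 8) = (1 - η / 4) + η / 8 by ring, Real.rpow_add hx0]
    ring
  rw [h2]
  have h3 : 4 * C * x ^ (1 - η / 8) / m ^ a ≤ 4 * C * x ^ (1 - η / 8) / (x / 2 ^ a) :=
    div_le_div_of_nonneg_left (by positivity) (by positivity) hma
  refine h3.trans ?_
  have h4 : 4 * C * x ^ (1 - η / 8) / (x / 2 ^ a) = 4 * C * 2 ^ a * x ^ (-(η / 8)) := by
    rw [show (1 - η / 8) = 1 + (-(η / 8)) by ring, Real.rpow_add hx0, Real.rpow_one]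
    field_simp
  rw [h4]
  refine mul_le_mul_of_nonneg_left ?_ (by positivity)
  have h5 : x ^ (-(η / 8)) = ((j : ℝ) + 1) ^ (-(a * (η / 8))) := by
    rw [hx, ← Real.rpow_natCast, ← Real.rpow_mul (by linarith)]
    congr 1
    ring
  have h6 : (1 : ℝ) / ((j : ℝ) + 1) ^ 3 = ((j : ℝ) + 1) ^ (-(3 : ℝ)) := by
    rw [Real.rpow_neg (by linarith), show (3 : ℝ) = ((3 : ℕ) : ℝ) by norm_num, Real.rpow_natCast, one_div]
  rw [h5, h6]
  refine Real.rpow_le_rpow_of_exponent_le hj1 ?_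
  have h7 : 32 / η * (η / 8) ≤ a * (η / 8) := mul_le_mul_of_nonneg_right ha (by positivity)
  have h8 : 32 / η * (η / 8) = 4 := by field_simp; norm_num
  linarith

/-- the orders -/
noncomputable def kk (j l : ℕ) : ℝ := ((max l 1 : ℕ) : ℝ) / ((j : ℝ) + 1)

lemma kk_pos (j l : ℕ) : 0 < kk j l := by
  unfold kk
  have h1 : (0 : ℝ) < ((max l 1 : ℕ) : ℝ) := by exact_mod_cast lt_of_lt_of_le one_pos (le_max_right _ _)
  have : (0 : ℝ) ≤ j := Nat.cast_nonneg j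
  positivity

/-- the index set -/
noncomputable def F2 (η : ℝ) (a κ j : ℕ) : Finset ℕ :=
  (FF η a j ×ˢ Icc 1 (κ * (j + 1))).image fun p => Nat.pair p.1 p.2

lemma mem_F2 {η : ℝ} {a κ j n : ℕ} : n ∈ F2 η a κ j ↔
    (Nat.unpair n).1 ∈ FF η a j ∧ 1 ≤ (Nat.unpair n).2 ∧ (Nat.unpair n).2 ≤ κ * (j + 1) := by
  unfold F2
  rw [mem_image]
  constructor
  · rintro ⟨p, hp, rfl⟩
    rw [mem_product, mem_Icc] at hp
    rw [Nat.unpair_pair]
    exact hp
  · intro h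
    refine ⟨((Nat.unpair n).1, (Nat.unpair n).2), ?_, Nat.pair_unpair n⟩
    rw [mem_product, mem_Icc]
    exact h

lemma sum_F2 (η : ℝ) (a κ j : ℕ) (f : ℕ → ℝ) :
    ∑ n ∈ F2 η a κ j, f (Nat.unpair n).1 = ((κ * (j + 1) : ℕ) : ℝ) * ∑ i ∈ FF η a j, f i := by
  unfold F2
  rw [Finset.sum_image]
  · rw [Finset.sum_product, Finset.mul_sum]
    refine Finset.sum_congr rfl fun i _ => ?_
    simp only [Nat.unpair_pair]
    rw [Finset.sum_const, Nat.card_Icc, Nat.add_sub_cancel, nsmul_eq_mul]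
  · intro p _ q _ h
    have h1 := congrArg Nat.unpair h
    simp only [Nat.unpair_pair] at h1
    exact h1

theorem core (hVARM : S_VARM) (hMC : S_MC) (hMER : S_MER) (hAE : S_AE) (hMON : S_AAMON) : S_GRMK := by
  intro η a κ m hη hη1 ha8 hκ hm
  obtain ⟨C₀, hC₀, hvar⟩ := hVARM
  obtain ⟨γ, hγ⟩ : ∃ γ : ℝ, γ = 2 * (κ : ℝ) + 2 * |(m : ℝ)| := ⟨_, rfl⟩
  have hκ1 : (1 : ℝ) ≤ κ := by exact_mod_cast hκ
  have hγ0 : 0 < γ := by
    have := abs_nonneg (m : ℝ)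
    rw [hγ]
    linarith
  have hmono : ∀ (k : ℝ) (y : ℕ), 0 < k → k ≤ κ → AA (|k + m| + |k - m|) y ≤ AA γ y := by
    intro k y hk hkκ
    apply hMON
    · have h1 := abs_add_le (k + (m : ℝ)) (k - m)
      have h2 : (k + (m : ℝ)) + (k - m) = 2 * k := by ring
      rw [h2, abs_of_pos (by linarith : (0 : ℝ) < 2 * k)] at h1
      linarith
    · have h1 := abs_add_le k (m : ℝ)
      have h2 := abs_sub k (m : ℝ)
      rw [abs_of_pos hk] at h1 h2
      rw [hγ]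
      linarith
  obtain ⟨C', hC'0, hAA⟩ := AA_bound hMER hγ0 hη
  have hCC : 0 < C₀ * C' := mul_pos hC₀ hC'0
  have ht1 : ∀ j : ℕ, (1 : ℝ) ≤ ((max j 1 : ℕ) : ℝ) ^ a := fun j =>
    one_le_pow₀ (by exact_mod_cast le_max_right _ _)
  have ht0 : ∀ j : ℕ, (0 : ℝ) < ((max j 1 : ℕ) : ℝ) ^ a := fun j => by linarith [ht1 j]
  have hcore : ∀ g : ℂ → ℝ, Measurable g → (∀ z, |g z| ≤ ‖z‖) →
      ∀ᵐ θ ∂P, ∀ ε : ℝ, 0 < ε → ∀ᶠ j in atTop, ∀ n ∈ F2 η a κ j,
        |g (C θ (kk j (Nat.unpair n).2) m (gr η (Nat.unpair n).1) (((max j 1 : ℕ) : ℝ) ^ a))| ≤ ε := by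
    intro g hg hgz
    have hmeas : ∀ j n : ℕ, Measurable fun θ : ℕ → ℝ =>
        g (C θ (kk j (Nat.unpair n).2) m (gr η (Nat.unpair n).1) (((max j 1 : ℕ) : ℝ) ^ a)) := by
      intro j n
      obtain ⟨B, _, _, _, _, h, _⟩ := hMC (kk j (Nat.unpair n).2) (gr η (Nat.unpair n).1) (kk_pos _ _)
      exact hg.comp (h m _ (ht0 j)).1
    refine hAE (ℕ → ℝ) P
      (fun j n θ => g (C θ (kk j (Nat.unpair n).2) m (gr η (Nat.unpair n).1) (((max j 1 : ℕ) : ℝ) ^ a)))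
      (fun j n => 2 / ((max j 1 : ℕ) : ℝ) ^ a * ((C₀ * C') * (gr η (Nat.unpair n).1 : ℝ) ^ (η / 16)))
      (fun j => F2 η a κ j) hmeas ?_ ?_ ?_
    · intro j n
      obtain ⟨B, hB, _, _, _, h, _⟩ := hMC (kk j (Nat.unpair n).2) (gr η (Nat.unpair n).1) (kk_pos _ _)
      refine Integrable.of_bound (C := B ^ 2) ((hmeas j n).pow_const 2).aestronglyMeasurable ?_
      refine Eventually.of_forall fun θ => ?_
      rw [Real.norm_eq_abs, abs_pow]
      exact pow_le_pow_left₀ (abs_nonneg _) ((hgz _).trans ((h m _ (ht0 j)).2 θ)) 2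
    · intro j n hn
      rw [mem_F2, mem_FF] at hn
      have hkκ : kk j (Nat.unpair n).2 ≤ κ := by
        unfold kk
        rw [max_eq_left hn.2.1, div_le_iff₀ (by positivity)]
        exact_mod_cast hn.2.2
      have hk0 := kk_pos j (Nat.unpair n).2
      generalize kk j (Nat.unpair n).2 = k at hkκ hk0 ⊢
      generalize (Nat.unpair n).1 = i at hn ⊢
      obtain ⟨B, hB, _, _, _, h, _⟩ := hMC k (gr η i) hk0
      have hint : Integrable (fun θ : ℕ → ℝ => ‖C θ k m (gr η i) (((max j 1 : ℕ) : ℝ) ^ a)‖ ^ 2) P := by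
        refine Integrable.of_bound (C := B ^ 2)
          ((h m _ (ht0 j)).1.norm.pow_const 2).aestronglyMeasurable ?_
        refine Eventually.of_forall fun θ => ?_
        rw [Real.norm_eq_abs, abs_pow, abs_norm]
        exact pow_le_pow_left₀ (norm_nonneg _) ((h m _ (ht0 j)).2 θ) 2
      have h1 : ∫ θ, g (C θ k m (gr η i) (((max j 1 : ℕ) : ℝ) ^ a)) ^ 2 ∂P ≤
          ∫ θ, ‖C θ k m (gr η i) (((max j 1 : ℕ) : ℝ) ^ a)‖ ^ 2 ∂P := by
        refine integral_mono_of_nonneg (Eventually.of_forall fun θ => sq_nonneg _) hint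
          (Eventually.of_forall fun θ => ?_)
        have h2 := pow_le_pow_left₀ (abs_nonneg _)
          (hgz (C θ k m (gr η i) (((max j 1 : ℕ) : ℝ) ^ a))) 2
        rw [sq_abs] at h2
        exact h2
      refine h1.trans ((hvar k m (gr η i) _ hk0 hm (ht0 j)).trans ?_)
      have h3 := (hmono k (gr η i) hk0 hkκ).trans (hAA (gr η i) hn.1.2.1)
      have h4 : 0 ≤ C₀ / ((max j 1 : ℕ) : ℝ) ^ a := div_nonneg hC₀.le (ht0 j).le
      have h5 : 0 ≤ C' * (gr η i : ℝ) ^ (η / 16) := by positivity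
      calc C₀ / ((max j 1 : ℕ) : ℝ) ^ a * AA (|k + m| + |k - m|) (gr η i)
          ≤ C₀ / ((max j 1 : ℕ) : ℝ) ^ a * (C' * (gr η i : ℝ) ^ (η / 16)) :=
            mul_le_mul_of_nonneg_left h3 h4
        _ ≤ 2 * (C₀ / ((max j 1 : ℕ) : ℝ) ^ a * (C' * (gr η i : ℝ) ^ (η / 16))) := by
            have := mul_nonneg h4 h5
            linarith
        _ = 2 / ((max j 1 : ℕ) : ℝ) ^ a * ((C₀ * C') * (gr η i : ℝ) ^ (η / 16)) := by ring
    · refine Summable.of_nonneg_of_le (fun j => Finset.sum_nonneg fun n _ => ?_)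
        (fun j => ?_ : ∀ j : ℕ, _ ≤ (κ : ℝ) * (4 * (C₀ * C') * 2 ^ a) * (1 / ((j : ℝ) + 1) ^ 2)) ?_
      · have := ht0 j
        positivity
      · rw [sum_F2 η a κ j fun i => 2 / ((max j 1 : ℕ) : ℝ) ^ a * ((C₀ * C') * (gr η i : ℝ) ^ (η / 16))]
        have h1 := bound3 hCC hη hη1 ha8 j
        have h2 : (0 : ℝ) ≤ ((κ * (j + 1) : ℕ) : ℝ) := Nat.cast_nonneg _
        refine (mul_le_mul_of_nonneg_left h1 h2).trans (le_of_eq ?_)
        have h3 : ((j : ℝ) + 1) ≠ 0 := by positivity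
        push_cast
        field_simp
      · refine Summable.mul_left _ ?_
        have h1 : Summable (fun n : ℕ => 1 / (n : ℝ) ^ 2) :=
          Real.summable_one_div_nat_pow.2 (by norm_num)
        have h2 := (summable_nat_add_iff 1).2 h1
        refine h2.congr fun n => ?_
        push_cast
        rfl
  filter_upwards [hcore Complex.re Complex.measurable_re Complex.abs_re_le_norm,
    hcore Complex.im Complex.measurable_im Complex.abs_im_le_norm] with θ h1 h2 ε hε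
  filter_upwards [h1 (ε / 2) (half_pos hε), h2 (ε / 2) (half_pos hε), eventually_ge_atTop 1]
    with j hj1 hj2 hj i hi hij l hl1 hl2
  have hmax : max j 1 = j := max_eq_left hj
  rw [hmax] at hj1 hj2
  have hmem : i ∈ FF η a j := by
    rw [mem_FF]
    have hjj : (1 : ℝ) ≤ (j : ℝ) + 1 := by
      have : (0 : ℝ) ≤ j := Nat.cast_nonneg j
      linarith
    have hx1 : (1 : ℝ) ≤ ((j : ℝ) + 1) ^ a := one_le_pow₀ hjj
    refine ⟨⟨?_, Nat.le_floor (range_le hη hη1 hx1 hij)⟩, hi, hij⟩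
    by_contra h0
    have h0' : i = 0 := by omega
    subst h0'
    have : gr η 0 = 0 := by
      unfold gr
      rw [Nat.cast_zero, Real.zero_rpow (by linarith), Nat.floor_zero]
    omega
  have hmem2 : Nat.pair i l ∈ F2 η a κ j := by
    rw [mem_F2, Nat.unpair_pair]
    exact ⟨hmem, hl1, hl2⟩
  have hkk : kk j l = (l : ℝ) / ((j : ℝ) + 1) := by
    unfold kk
    rw [max_eq_left hl1]
  have h4 := hj1 _ hmem2
  have h5 := hj2 _ hmem2
  rw [Nat.unpair_pair] at h4 h5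
  simp only [hkk] at h4 h5
  have h3 := Complex.norm_le_abs_re_add_abs_im (C θ ((l : ℝ) / ((j : ℝ) + 1)) m (gr η i) ((j : ℝ) ^ a))
  linarith

end GRMK

theorem pGRMK (h : S_AAMON) : S_GRMK :=
  GRMK.core Pool.Agent.T2H98.EF.vVARM Pool.Agent.T2H98.EF.vMC Pool.Agent.T2H98.EP.pMER Pool.Agent.T2H98.RT.pAE h

end Pool.Agent.T2H98.UK
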