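import Pool.Agent.T2H98.UK.Stm

/-!
# Package INTK
-/

set_option autoImplicit false

open MeasureTheory Filter Topology Finset

namespace Pool.Agent.T2H98.UK

open Pool.Agent.T2H98.RT (P tw QS)
open Pool.Agent.T2H98.EP (pr zp EU JE AA MK cK gr)
open Pool.Agent.T2H98.EF (H JH cc pw C)
open Pool.Agent.H306R2 (lc dv aF)

namespace INTK

theorem small {B k k' n ε X Y : ℝ} (hB : 0 < B) (hn : 0 < n) (h0 : k' ≤ k) (h1 : k - k' ≤ 1 / n)
    (hY : Y / n ≤ ε / (3 * B)) (hε : 0 < ε) (hX : X ≤ Y) : B * (k - k') * X ≤ ε / 3 := by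
  have hd : 0 ≤ B * (k - k') := mul_nonneg hB.le (by linarith)
  refine (mul_le_mul_of_nonneg_left hX hd).trans ?_
  rcases le_total 0 Y with h | h
  · calc B * (k - k') * Y ≤ B * (1 / n) * Y :=
        mul_le_mul_of_nonneg_right (mul_le_mul_of_nonneg_left h1 hB.le) h
      _ = B * (Y / n) := by ring
      _ ≤ B * (ε / (3 * B)) := mul_le_mul_of_nonneg_left hY hB.le
      _ = ε / 3 := by field_simp
  · have := mul_nonneg_of_nonpos_of_nonpos (neg_nonpos.2 hd) h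
    linarith

end INTK

theorem pINTK (hPWK : S_PWK) (hJEK : S_JEK) (hAAK : S_AAK) (hSML : S_SML) : S_INTK := by
  intro θ η a hη hη1 ha hGK k hk ε hε
  obtain ⟨B, M, hB, hM, hPW⟩ := hPWK k hk
  have hκ : 1 ≤ M + ⌈k⌉₊ := by omega
  have e1 := hGK (M + ⌈k⌉₊) hκ (ε / 3) (by positivity)
  have e2 := hGK (M + ⌈k⌉₊) hκ 1 one_pos
  have e3 := hSML M a η hM ha hη hη1 (ε / (3 * B)) (by positivity)
  have e4 : ∀ᶠ j : ℕ in atTop, 2 / k ≤ (j : ℝ) + 1 := by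
    filter_upwards [eventually_ge_atTop ⌈2 / k⌉₊] with j hj
    have := Nat.ceil_le.1 hj
    linarith
  filter_upwards [e1, e2, e3, e4, eventually_ge_atTop 1] with j h1 h2 h3 h4 h5 i hi1 hi2
  have hj0 : (0 : ℝ) < (j : ℝ) + 1 := by positivity
  have hkj : 2 ≤ k * ((j : ℝ) + 1) := by
    rw [div_le_iff₀ hk] at h4; linarith
  have hT : (0 : ℝ) < (j : ℝ) ^ a := by
    have : (0 : ℝ) < j := by exact_mod_cast h5
    positivity
  have hl1 : ((⌊k * ((j : ℝ) + 1)⌋₊ : ℕ) : ℝ) ≤ k * ((j : ℝ) + 1) := Nat.floor_le (by positivity)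
  have hl2 : k * ((j : ℝ) + 1) < (⌊k * ((j : ℝ) + 1)⌋₊ : ℕ) + 1 := Nat.lt_floor_add_one _
  have hl3 : 1 ≤ ⌊k * ((j : ℝ) + 1)⌋₊ := Nat.le_floor (by push_cast; linarith)
  generalize ⌊k * ((j : ℝ) + 1)⌋₊ = l at hl1 hl2 hl3
  have hl4 : l ≤ (M + ⌈k⌉₊) * (j + 1) := by
    have hc := Nat.le_ceil k
    have hM0 : (0 : ℝ) ≤ M := Nat.cast_nonneg _
    have h6 : (l : ℝ) ≤ ((M + ⌈k⌉₊) * (j + 1) : ℕ) := by
      push_cast
      nlinarith
    exact_mod_cast h6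
  have hk1 : (l : ℝ) / ((j : ℝ) + 1) ≤ k := by rw [div_le_iff₀ hj0]; exact hl1
  have hk2 : k - (l : ℝ) / ((j : ℝ) + 1) ≤ 1 / ((j : ℝ) + 1) := by
    rw [sub_le_iff_le_add, ← add_div, le_div_iff₀ hj0]; linarith
  have hk3 : k / 2 ≤ (l : ℝ) / ((j : ℝ) + 1) := by
    have : 1 / ((j : ℝ) + 1) ≤ k / 2 := by rw [div_le_iff₀ hj0]; linarith
    linarith
  have a1 := h1 i hi1 hi2 l hl3 hl4
  have a2 := h2 i hi1 hi2 (M * (j + 1)) (by nlinarith) (by nlinarith [Nat.zero_le (⌈k⌉₊ * (j + 1))])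
  have hcast : (((M * (j + 1) : ℕ) : ℝ) / ((j : ℝ) + 1)) = M := by push_cast; field_simp
  rw [hcast] at a2
  have a3 := h3 i hi1 hi2
  have b1 := (hJEK k B M hk hB hM hPW θ _ ((j : ℝ) ^ a) (gr η i) hT hk3 hk1).1
  have b2 := hAAK k B M hk hB hM hPW _ (gr η i) hi1 hk3 hk1
  have c1 := INTK.small (X := 1 + JE θ M (gr η i) ((j : ℝ) ^ a)) hB hj0 hk1 hk2 a3 hε
    (by linarith [(abs_le.1 a2).2])
  have c2 := INTK.small (X := 1 + AA M (gr η i)) hB hj0 hk1 hk2 a3 hε (by linarith)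
  have d1 := abs_le.1 (b1.trans c1)
  have d2 := abs_le.1 (b2.trans c2)
  have d3 := abs_le.1 a1
  rw [abs_le]
  constructor <;> linarith [d1.1, d1.2, d2.1, d2.2, d3.1, d3.2]

end Pool.Agent.T2H98.UK
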