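import Pool.Agent.T2H98.UK.Stm

/-! # Package JEK of project UK: interpolation of the moments and of the harmonics -/

set_option autoImplicit false

open MeasureTheory Filter Topology Finset

namespace Pool.Agent.T2H98.UK

open Pool.Agent.T2H98.RT (P tw QS)
open Pool.Agent.T2H98.EP (pr zp EU JE AA MK cK gr)
open Pool.Agent.T2H98.EF (H JH cc pw C)
open Pool.Agent.H306R2 (lc dv aF)

namespace JEK

lemma norm_sub_pw {k k' : ℝ} {m : ℤ} {w : ℂ} (hw : w ≠ 0) :
    ‖pw k m w - pw k' m w‖ = |‖w‖ ^ (2 * k) - ‖w‖ ^ (2 * k')| := by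
  unfold pw
  rw [← sub_mul, norm_mul, norm_zpow, norm_div, Complex.norm_real, norm_norm,
    div_self (norm_ne_zero_iff.mpr hw), one_zpow, mul_one, ← Complex.ofReal_sub, Complex.norm_real,
    Real.norm_eq_abs]

end JEK

theorem pJEK : S_JEK := by
  intro k B M hk hB hM hPW θ k' T y hT h0 h1
  have hk' : 0 < k' := by linarith
  have hM0 : (0 : ℝ) < (M : ℝ) := by exact_mod_cast hM
  obtain ⟨B1, -, hpos, hc1, -⟩ := EP.vJME k y hk
  obtain ⟨B2, -, -, hc2, -⟩ := EP.vJME k' y hk'
  obtain ⟨B3, -, -, hc3, -⟩ := EP.vJME (M : ℝ) y hM0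
  have hi3 : IntervalIntegrable (fun t : ℝ => ‖EU θ y t‖ ^ (2 * (M : ℝ))) volume 0 T :=
    (hc3 θ).intervalIntegrable _ _
  have hib : IntervalIntegrable (fun t : ℝ => B * (k - k') * (1 + ‖EU θ y t‖ ^ (2 * (M : ℝ))))
      volume 0 T := ((intervalIntegrable_const (c := (1 : ℝ))).add hi3).const_mul _
  have hpt : ∀ t : ℝ, |‖EU θ y t‖ ^ (2 * k) - ‖EU θ y t‖ ^ (2 * k')| ≤
      B * (k - k') * (1 + ‖EU θ y t‖ ^ (2 * (M : ℝ))) := fun t => hPW _ k' (hpos θ t).1 h0 h1
  have hint : 1 / T * ∫ t in (0:ℝ)..T, B * (k - k') * (1 + ‖EU θ y t‖ ^ (2 * (M : ℝ))) =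
      B * (k - k') * (1 + JE θ M y T) := by
    unfold JE
    rw [intervalIntegral.integral_const_mul,
      intervalIntegral.integral_add intervalIntegrable_const hi3,
      intervalIntegral.integral_const, sub_zero, smul_eq_mul, mul_one]
    field_simp
  rw [← hint]
  refine ⟨?_, fun m => ?_⟩
  · have e : JE θ k y T - JE θ k' y T =
        1 / T * ∫ t in (0:ℝ)..T, (‖EU θ y t‖ ^ (2 * k) - ‖EU θ y t‖ ^ (2 * k')) := by
      unfold JE
      rw [intervalIntegral.integral_sub ((hc1 θ).intervalIntegrable _ _)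
        ((hc2 θ).intervalIntegrable _ _), mul_sub]
    rw [e, abs_mul, abs_of_pos (by positivity : 0 < 1 / T)]
    refine mul_le_mul_of_nonneg_left ?_ (by positivity)
    rw [← Real.norm_eq_abs]
    exact intervalIntegral.norm_integral_le_of_norm_le hT.le
      (Eventually.of_forall fun t _ => by rw [Real.norm_eq_abs]; exact hpt t) hib
  · obtain ⟨_, _, hp1, _, hne, _, _, hie⟩ := EF.vMC k y hk
    obtain ⟨_, _, hp2, _, _, _, _, _⟩ := EF.vMC k' y hk'
    have hi1 := (hie m T).mul_continuousOn (hp1 m θ).continuousOn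
    have hi2 := (hie m T).mul_continuousOn (hp2 m θ).continuousOn
    have e : C θ k m y T - C θ k' m y T =
        1 / (T : ℂ) * ∫ t in (0:ℝ)..T, (Complex.exp (((2 * m * Pool.Agent.T2H98.RS.fi t : ℝ) : ℂ) * Complex.I) *
          pw k m (EU θ y t) - Complex.exp (((2 * m * Pool.Agent.T2H98.RS.fi t : ℝ) : ℂ) * Complex.I) *
          pw k' m (EU θ y t)) := by
      unfold C
      rw [intervalIntegral.integral_sub hi1 hi2, mul_sub]
    have hT' : ‖(1 / (T : ℂ))‖ = 1 / T := by
      rw [norm_div, norm_one, Complex.norm_real, Real.norm_of_nonneg hT.le]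
    rw [e, norm_mul, hT']
    refine mul_le_mul_of_nonneg_left ?_ (by positivity)
    refine intervalIntegral.norm_integral_le_of_norm_le hT.le (Eventually.of_forall fun t _ => ?_) hib
    rw [← mul_sub, norm_mul, Complex.norm_exp_ofReal_mul_I, one_mul, JEK.norm_sub_pw (hne m θ t).1]
    exact hpt t

end Pool.Agent.T2H98.UK
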