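import Pool.Agent.T2H98.UK.Stm

/-! # Package MEL of project UK: the mean of the moments -/

set_option autoImplicit false

open MeasureTheory Filter Topology Finset

namespace Pool.Agent.T2H98.UK

open Pool.Agent.T2H98.RT (P tw QS)
open Pool.Agent.T2H98.EP (pr zp EU JE AA MK cK gr)
open Pool.Agent.T2H98.EF (H JH cc pw C)
open Pool.Agent.H306R2 (lc dv aF)

namespace MEL

lemma sq_integral_le {f : (ℕ → ℝ) → ℝ} (hf : Integrable f P) (hf2 : Integrable (fun θ => f θ ^ 2) P) :
    (∫ θ, f θ ∂P) ^ 2 ≤ ∫ θ, f θ ^ 2 ∂P := by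
  set c : ℝ := ∫ θ, f θ ∂P with hc
  have h0 : 0 ≤ ∫ θ, (f θ - c) ^ 2 ∂P := integral_nonneg fun θ => sq_nonneg _
  have h1 : ∫ θ, (f θ - c) ^ 2 ∂P = ∫ θ, f θ ^ 2 ∂P - 2 * c * c + c ^ 2 := by
    have e : (fun θ => (f θ - c) ^ 2) = fun θ => (f θ ^ 2 - 2 * c * f θ) + c ^ 2 := by
      funext θ
      ring
    have hi : Integrable (fun θ => f θ ^ 2 - 2 * c * f θ) P := hf2.sub (hf.const_mul _)
    rw [e, integral_add hi (integrable_const _), integral_sub hf2 (hf.const_mul _),
      integral_const_mul, ← hc]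
    simp
  rw [h1] at h0
  nlinarith

end MEL

theorem pMEL : S_MEL := by
  intro k y hk hy
  obtain ⟨B, hB, -, -, hJ⟩ := EP.vJME k y hk
  obtain ⟨D, hD, hQ⟩ := EP.vQSE k hk
  set R : ℝ := D * Real.log y ^ D with hR
  have hlog : 0 < Real.log y := Real.log_pos (by exact_mod_cast (by omega : 1 < y))
  have hRp : 0 < R := mul_pos hD (Real.rpow_pos_of_pos hlog _)
  have hmain : ∀ T : ℝ, 0 < T → (∫ θ, JE θ k y T ∂P - AA k y) ^ 2 ≤ 2 / T * R := by
    intro T hT
    have hv := EP.vVARL k y T R hk hT (fun K => hQ y K hy)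
    have hc := (hJ T hT).1
    have hb := (hJ T hT).2
    have hi : Integrable (fun θ => JE θ k y T) P := by
      refine Integrable.of_bound hc.aestronglyMeasurable B (Eventually.of_forall fun θ => ?_)
      rw [Real.norm_of_nonneg (hb θ).1]
      exact (hb θ).2
    have hi1 : Integrable (fun θ => JE θ k y T - AA k y) P := hi.sub (integrable_const _)
    have hi2 : Integrable (fun θ => (JE θ k y T - AA k y) ^ 2) P := by
      refine Integrable.of_bound ((hc.sub continuous_const).pow 2).aestronglyMeasurable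
        ((B + |AA k y|) ^ 2) (Eventually.of_forall fun θ => ?_)
      rw [norm_pow]
      refine pow_le_pow_left₀ (norm_nonneg _) ?_ 2
      refine (norm_sub_le _ _).trans ?_
      rw [Real.norm_of_nonneg (hb θ).1, Real.norm_eq_abs]
      linarith [(hb θ).2]
    have h1 := (MEL.sq_integral_le hi1 hi2).trans hv
    have h2 : ∫ θ, (JE θ k y T - AA k y) ∂P = ∫ θ, JE θ k y T ∂P - AA k y := by
      rw [integral_sub hi (integrable_const _)]
      simp
    rwa [h2] at h1
  rw [Metric.tendsto_atTop]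
  intro ε hε
  refine ⟨2 * R / ε ^ 2 + 1, fun T hT => ?_⟩
  have hT0 : 0 < T := by
    have : 0 < 2 * R / ε ^ 2 := by positivity
    linarith
  have h1 := hmain T hT0
  have h2 : 2 / T * R < ε ^ 2 := by
    rw [div_mul_eq_mul_div, div_lt_iff₀ hT0]
    have h3 : 2 * R / ε ^ 2 < T := by linarith
    rw [div_lt_iff₀ (by positivity)] at h3
    linarith
  rw [Real.dist_eq]
  exact abs_lt_of_sq_lt_sq (h1.trans_lt h2) hε.le

end Pool.Agent.T2H98.UK
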