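import Pool.Agent.T2H98.UK.Stm

/-! # Package PWK of project UK: the pointwise interpolation inequality -/

set_option autoImplicit false

open MeasureTheory Filter Topology Finset

namespace Pool.Agent.T2H98.UK

open Pool.Agent.T2H98.RT (P tw QS)
open Pool.Agent.T2H98.EP (pr zp EU JE AA MK cK gr)
open Pool.Agent.T2H98.EF (H JH cc pw C)
open Pool.Agent.H306R2 (lc dv aF)

namespace PWK

lemma big {x k k' : ℝ} (hx : 1 ≤ x) (h0 : 0 ≤ k') (h1 : k' ≤ k) :
    |x ^ (2 * k) - x ^ (2 * k')| ≤ 2 * (k - k') * x ^ (2 * k + 1) := by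
  have hx0 : 0 < x := by linarith
  have hmono : x ^ (2 * k') ≤ x ^ (2 * k) := Real.rpow_le_rpow_of_exponent_le hx (by linarith)
  rw [abs_of_nonneg (by linarith)]
  have h2 : x ^ (2 * k') = x ^ (2 * k) * x ^ (-(2 * (k - k'))) := by
    rw [← Real.rpow_add hx0]
    congr 1
    ring
  have hlog : Real.log x ≤ x := (Real.log_le_sub_one_of_pos hx0).trans (by linarith)
  have h3 : 1 - 2 * (k - k') * x ≤ x ^ (-(2 * (k - k'))) := by
    have h4 : x ^ (-(2 * (k - k'))) = Real.exp (Real.log x * (-(2 * (k - k')))) := Real.rpow_def_of_pos hx0 _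
    rw [h4]
    have h5 := Real.add_one_le_exp (Real.log x * (-(2 * (k - k'))))
    have h6 : 2 * (k - k') * Real.log x ≤ 2 * (k - k') * x :=
      mul_le_mul_of_nonneg_left hlog (by linarith)
    linarith
  have hp : 0 < x ^ (2 * k) := Real.rpow_pos_of_pos hx0 _
  have h7 : x ^ (2 * k + 1) = x ^ (2 * k) * x := by rw [Real.rpow_add hx0, Real.rpow_one]
  rw [h2, h7]
  nlinarith [mul_le_mul_of_nonneg_left h3 hp.le]

lemma small {x k k' : ℝ} (hx0 : 0 < x) (hx : x < 1) (hk : 0 < k) (h0 : k / 2 ≤ k') (h1 : k' ≤ k) :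
    |x ^ (2 * k) - x ^ (2 * k')| ≤ 2 / k * (k - k') := by
  have hmono : x ^ (2 * k) ≤ x ^ (2 * k') :=
    Real.rpow_le_rpow_of_exponent_ge hx0 hx.le (by linarith)
  rw [abs_sub_comm, abs_of_nonneg (by linarith)]
  have hlx : Real.log x < 0 := Real.log_neg hx0 hx
  -- `x^(2k') - x^(2k) ≤ 2 (k - k') |log x| x^(2k')`
  have h2 : x ^ (2 * k) = x ^ (2 * k') * x ^ (2 * (k - k')) := by
    rw [← Real.rpow_add hx0]
    congr 1
    ring
  have h3 : 1 + 2 * (k - k') * Real.log x ≤ x ^ (2 * (k - k')) := by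
    rw [Real.rpow_def_of_pos hx0]
    have h5 := Real.add_one_le_exp (Real.log x * (2 * (k - k')))
    linarith
  have hp : 0 < x ^ (2 * k') := Real.rpow_pos_of_pos hx0 _
  have h4 : x ^ (2 * k') - x ^ (2 * k) ≤ 2 * (k - k') * (-Real.log x * x ^ (2 * k')) := by
    rw [h2]
    nlinarith [mul_le_mul_of_nonneg_left h3 hp.le]
  -- `|log x| x^(2k') ≤ |log x| x^k ≤ 1/k`
  have h6 : x ^ (2 * k') ≤ x ^ k := Real.rpow_le_rpow_of_exponent_ge hx0 hx.le (by linarith)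
  have h7 : -Real.log x * x ^ k ≤ 1 / k := by
    have h8 : x ^ k = Real.exp (Real.log x * k) := Real.rpow_def_of_pos hx0 k
    set u : ℝ := -Real.log x * k with hu
    have h9 : x ^ k = Real.exp (-u) := by rw [h8, hu]; congr 1; ring
    have h10 : u * Real.exp (-u) ≤ 1 := by
      have h11 := Real.add_one_le_exp u
      have h12 : 0 < Real.exp (-u) := Real.exp_pos _
      have h13 : Real.exp u * Real.exp (-u) = 1 := by rw [← Real.exp_add]; simp
      nlinarith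
    rw [h9, le_div_iff₀ hk]
    have h14 : -Real.log x * Real.exp (-u) * k = u * Real.exp (-u) := by rw [hu]; ring
    rw [h14]
    exact h10
  have h8 : -Real.log x * x ^ (2 * k') ≤ 1 / k :=
    (mul_le_mul_of_nonneg_left h6 (by linarith)).trans h7
  calc x ^ (2 * k') - x ^ (2 * k) ≤ 2 * (k - k') * (-Real.log x * x ^ (2 * k')) := h4
    _ ≤ 2 * (k - k') * (1 / k) := mul_le_mul_of_nonneg_left h8 (by linarith)
    _ = 2 / k * (k - k') := by ring

end PWK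

theorem pPWK : S_PWK := by
  intro k hk
  refine ⟨2 + 2 / k, ⌈k⌉₊ + 1, by positivity, by omega, ?_⟩
  intro x k' hx h0 h1
  have hd : 0 ≤ k - k' := by linarith
  have hk2 : 0 < 2 / k := by positivity
  have hxM : 0 < x ^ (2 * ((⌈k⌉₊ + 1 : ℕ) : ℝ)) := Real.rpow_pos_of_pos hx _
  rcases le_or_gt 1 x with hx1 | hx1
  · have h2 := PWK.big hx1 (by linarith : (0 : ℝ) ≤ k') h1
    have h3 : x ^ (2 * k + 1) ≤ x ^ (2 * ((⌈k⌉₊ + 1 : ℕ) : ℝ)) := by
      refine Real.rpow_le_rpow_of_exponent_le hx1 ?_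
      have := Nat.le_ceil k
      push_cast
      linarith
    calc |x ^ (2 * k) - x ^ (2 * k')| ≤ 2 * (k - k') * x ^ (2 * k + 1) := h2
      _ ≤ 2 * (k - k') * x ^ (2 * ((⌈k⌉₊ + 1 : ℕ) : ℝ)) :=
          mul_le_mul_of_nonneg_left h3 (by linarith)
      _ ≤ (2 + 2 / k) * (k - k') * (1 + x ^ (2 * ((⌈k⌉₊ + 1 : ℕ) : ℝ))) := by
          have e : (2 + 2 / k) * (k - k') * (1 + x ^ (2 * ((⌈k⌉₊ + 1 : ℕ) : ℝ))) -
            2 * (k - k') * x ^ (2 * ((⌈k⌉₊ + 1 : ℕ) : ℝ)) =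
            (2 + 2 / k) * (k - k') + 2 / k * (k - k') * x ^ (2 * ((⌈k⌉₊ + 1 : ℕ) : ℝ)) := by ring
          have : 0 ≤ (2 + 2 / k) * (k - k') + 2 / k * (k - k') * x ^ (2 * ((⌈k⌉₊ + 1 : ℕ) : ℝ)) := by
            positivity
          linarith
  · have h2 := PWK.small hx hx1 hk h0 h1
    refine h2.trans ?_
    have e : (2 + 2 / k) * (k - k') * (1 + x ^ (2 * ((⌈k⌉₊ + 1 : ℕ) : ℝ))) -
        2 / k * (k - k') = 2 * (k - k') + (2 + 2 / k) * (k - k') * x ^ (2 * ((⌈k⌉₊ + 1 : ℕ) : ℝ)) := by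
      ring
    have : 0 ≤ 2 * (k - k') + (2 + 2 / k) * (k - k') * x ^ (2 * ((⌈k⌉₊ + 1 : ℕ) : ℝ)) := by
      positivity
    linarith

end Pool.Agent.T2H98.UK
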