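import Pool.Agent.T2H98.UK.Stm

set_option autoImplicit false

open MeasureTheory Filter Topology Finset

namespace Pool.Agent.T2H98.UK

open Pool.Agent.T2H98.RT (P tw QS)
open Pool.Agent.T2H98.EP (pr zp EU JE AA MK cK gr)
open Pool.Agent.T2H98.EF (H JH cc pw C)
open Pool.Agent.H306R2 (lc dv aF)

theorem pSML : S_SML := by
  intro M a η hM ha hη hη1 ε hε
  have hMR : (0 : ℝ) < (M : ℝ) := by exact_mod_cast hM
  have haR : (0 : ℝ) < (a : ℝ) := by exact_mod_cast ha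
  obtain ⟨K, hK, hAA⟩ := EF.GRM.AA_bound EP.pMER hMR (η := 4 / (a : ℝ)) (by positivity)
  have hT : Tendsto (fun j : ℕ => (2 + K) * ((j : ℝ) + 1) ^ (-(1 / 2) : ℝ)) atTop (𝓝 ((2 + K) * 0)) := by
    refine Tendsto.const_mul _ ?_
    have h1 := tendsto_rpow_neg_atTop (y := (1 / 2 : ℝ)) (by norm_num)
    have h2 : Tendsto (fun j : ℕ => (j : ℝ) + 1) atTop atTop :=
      tendsto_atTop_add_const_right _ _ tendsto_natCast_atTop_atTop
    exact h1.comp h2
  rw [mul_zero] at hT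
  filter_upwards [hT.eventually (ge_mem_nhds hε)] with j hj i hi hi2
  refine le_trans ?_ hj
  set x : ℝ := (j : ℝ) + 1 with hx
  have hx1 : 1 ≤ x := by
    have : (0 : ℝ) ≤ j := Nat.cast_nonneg j
    linarith
  have hx0 : 0 < x := by linarith
  have h1 := hAA (gr η i) hi
  have h2 : ((gr η i : ℕ) : ℝ) ^ (4 / (a : ℝ) / 16) ≤ x ^ (1 / 2 : ℝ) := by
    have h3 : ((gr η i : ℕ) : ℝ) ≤ (x ^ a) ^ (2 : ℝ) :=
      hi2.trans (Real.rpow_le_rpow_of_exponent_le (one_le_pow₀ hx1) (by linarith))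
    have h4 := Real.rpow_le_rpow (Nat.cast_nonneg _) h3 (z := 4 / (a : ℝ) / 16) (by positivity)
    refine h4.trans (le_of_eq ?_)
    rw [← Real.rpow_natCast x a, ← Real.rpow_mul hx0.le, ← Real.rpow_mul hx0.le]
    congr 1
    field_simp
    norm_num
  have h5 : AA M (gr η i) ≤ K * x ^ (1 / 2 : ℝ) :=
    h1.trans (mul_le_mul_of_nonneg_left h2 hK.le)
  have h6 : 1 ≤ x ^ (1 / 2 : ℝ) := Real.one_le_rpow hx1 (by norm_num)
  rw [div_le_iff₀ hx0]
  have h7 : (2 + K) * x ^ (-(1 / 2) : ℝ) * x = (2 + K) * x ^ (1 / 2 : ℝ) := by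
    have : x ^ (-(1 / 2) : ℝ) * x = x ^ (1 / 2 : ℝ) := by
      nth_rewrite 2 [← Real.rpow_one x]
      rw [← Real.rpow_add hx0]
      norm_num
    rw [mul_assoc, this]
  rw [h7]
  nlinarith

end Pool.Agent.T2H98.UK
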