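import Pool.Agent.T2H98.UK.Fin
import Pool.Agent.T2H98.UK.QSU
import Pool.Agent.T2H98.UK.GRK
import Pool.Agent.T2H98.UK.PWK
import Pool.Agent.T2H98.UK.MEL
import Pool.Agent.T2H98.UK.JEK
import Pool.Agent.T2H98.UK.AAK2
import Pool.Agent.T2H98.UK.SML
import Pool.Agent.T2H98.UK.INTK
import Pool.Agent.T2H98.UK.INTM2
import Pool.Agent.T2H98.UK.AAMON
import Pool.Agent.T2H98.UK.GRMK

set_option autoImplicit false

open MeasureTheory

namespace Pool.Agent.T2H98.UK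

open Pool.Agent.T2H98.RT (P)

theorem vINTK : S_INTK := pINTK pPWK pJEK (pAAK pMEL pJEK) pSML
theorem vINTM : S_INTM := pINTM pPWK pJEK pSML
theorem uE : ∀ᵐ θ ∂P, ∀ k : ℝ, 0 < k → FE θ k := vFINU (pGRK pQSU) vINTK
theorem uH : ∀ᵐ θ ∂P, ∀ k : ℝ, 0 < k → FH θ k := vFHU (pGRK pQSU) vINTK (pGRMK pAAMON) vINTM

end Pool.Agent.T2H98.UK
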