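import Pool.Agent.T2H98.UK.JHU

/-! Project UK: the final statements, one null set for all real orders. -/

set_option autoImplicit false

open MeasureTheory Filter Topology Finset

namespace Pool.Agent.T2H98.UK

open Pool.Agent.T2H98.RT (P tw pMUL pAE)
open Pool.Agent.T2H98.EP (pr zp EU JE AA MK cK gr pAAL pMER vJME pINTTE pINTNE pSTEP)
open Pool.Agent.T2H98.EF (H JH cc pw C pTRIG vMC vINTH vINNH pINTH pINNH)
open Pool.Agent.T2H98.RS (fi)
open Pool.Agent.H306R2 (lc dv aF)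

/-- the final statement for the product -/
def FE (θ : ℕ → ℝ) (k : ℝ) : Prop := ∀ η : ℝ, 0 < η → ∀ ε : ℝ, 0 < ε →
  ∃ (y₀ : ℕ) (T₀ : ℝ), ∀ (T : ℝ) (y : ℕ), T₀ ≤ T → y₀ ≤ y → (y : ℝ) ≤ T ^ (2 - η) →
    |1 / T * (∫ t in T..(2 * T), ‖EU θ y t‖ ^ (2 * k)) -
        aF k * Real.exp (Real.eulerMascheroniConstant * k ^ 2) * Real.log y ^ (k ^ 2)| ≤ ε * Real.log y ^ (k ^ 2)

/-- the final statement for the model with functional equation -/
def FH (θ : ℕ → ℝ) (k : ℝ) : Prop := ∀ η : ℝ, 0 < η → ∀ ε : ℝ, 0 < ε →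
  ∃ (y₀ : ℕ) (T₀ : ℝ), ∀ (T : ℝ) (y : ℕ), T₀ ≤ T → y₀ ≤ y → (y : ℝ) ≤ T ^ (2 - η) →
    |1 / T * (∫ t in T..(2 * T), |H θ y t| ^ (2 * k)) -
        cc k * (aF k * Real.exp (Real.eulerMascheroniConstant * k ^ 2)) * Real.log y ^ (k ^ 2)| ≤ ε * Real.log y ^ (k ^ 2)

theorem FE_of {θ : ℕ → ℝ} {k : ℝ} (hk : 0 < k) (hθ : ∀ n : ℕ, EP.FINE.Rel θ k (1 / ((n : ℝ) + 1))) : FE θ k := by
  have hJME := vJME
  have hMER := pMER
  have hAAL := pAAL
  intro η hη ε hε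
  obtain ⟨n, hn⟩ := exists_nat_one_div_lt hη
  have hn1 : 1 / ((n : ℝ) + 1) ≤ 1 := by
    rw [div_le_one (by positivity)]
    have : (0 : ℝ) ≤ n := Nat.cast_nonneg n
    linarith
  have hlim := hMER k hk
  set gam : ℝ := aF k * Real.exp (Real.eulerMascheroniConstant * k ^ 2) with hgam
  have hA1' := (hAAL k hk).1
  have hg : 0 ≤ gam := by
    refine ge_of_tendsto hlim ?_
    filter_upwards [eventually_ge_atTop 3] with y hy
    have h1 := hA1' y
    have h2 : 0 ≤ Real.log y := Real.log_natCast_nonneg y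
    positivity
  obtain ⟨N₁, T₁, hT₁, hrel⟩ := hθ n (ε / (6 * (gam + 1))) (by positivity)
  have hev : ∀ᶠ N : ℕ in atTop, |AA k N / Real.log N ^ (k ^ 2) - gam| < min (ε / 2) 1 := by
    have := (Metric.tendsto_nhds.mp hlim) (min (ε / 2) 1) (by positivity)
    filter_upwards [this] with N hN
    rwa [Real.dist_eq] at hN
  obtain ⟨N₂, hN₂⟩ := eventually_atTop.mp hev
  refine ⟨max (max N₁ N₂) 3, T₁, ?_⟩
  intro T N hT hN hNT
  have hN1 : N₁ ≤ N := (le_max_left _ _).trans ((le_max_left _ _).trans hN)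
  have hN2 : N₂ ≤ N := (le_max_right _ _).trans ((le_max_left _ _).trans hN)
  have hN3 : 3 ≤ N := (le_max_right _ _).trans hN
  have hT1 : 1 ≤ T := hT₁.trans hT
  have hT0 : 0 < T := by linarith
  have hexp : (T : ℝ) ^ (2 - η) ≤ T ^ (2 - 1 / ((n : ℝ) + 1)) :=
    Real.rpow_le_rpow_of_exponent_le hT1 (by linarith)
  have hexp2 : (T : ℝ) ^ (2 - 1 / ((n : ℝ) + 1)) ≤ (2 * T) ^ (2 - 1 / ((n : ℝ) + 1)) :=
    Real.rpow_le_rpow hT0.le (by linarith) (by linarith)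
  have r1 := hrel T N hT hN1 (hNT.trans hexp)
  have r2 := hrel (2 * T) N (by linarith) hN1 (hNT.trans (hexp.trans hexp2))
  -- the integral
  obtain ⟨B, -, -, hc, -⟩ := hJME k N hk
  have hcont : Continuous (fun t => ‖EU θ N t‖ ^ (2 * k)) := hc θ
  have hsplit : (∫ t in T..(2 * T), ‖EU θ N t‖ ^ (2 * k)) =
      (∫ t in (0:ℝ)..(2 * T), ‖EU θ N t‖ ^ (2 * k)) - ∫ t in (0:ℝ)..T, ‖EU θ N t‖ ^ (2 * k) :=
    (intervalIntegral.integral_interval_sub_left (hcont.intervalIntegrable _ _)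
      (hcont.intervalIntegrable _ _)).symm
  have hJ : 1 / T * (∫ t in T..(2 * T), ‖EU θ N t‖ ^ (2 * k)) = 2 * JE θ k N (2 * T) - JE θ k N T := by
    rw [hsplit]
    unfold JE
    field_simp
  rw [hJ]
  have hLpos : 0 < Real.log N ^ (k ^ 2) := by
    apply Real.rpow_pos_of_pos
    apply Real.log_pos
    exact_mod_cast (by omega : 1 < N)
  set L : ℝ := Real.log N ^ (k ^ 2) with hL
  have hA : |AA k N - gam * L| ≤ min (ε / 2) 1 * L := by
    have h1 := (hN₂ N hN2).le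
    have h2 : AA k N - gam * L = (AA k N / L - gam) * L := by
      field_simp
    rw [h2, abs_mul, abs_of_pos hLpos]
    gcongr
  have hA1 : AA k N ≤ (gam + 1) * L := by
    have h1 := (abs_le.mp hA).2
    have h2 : min (ε / 2) 1 * L ≤ 1 * L := by
      gcongr
      exact min_le_right _ _
    linarith
  have hA0 : 0 ≤ AA k N := le_trans zero_le_one (hA1' N)
  have hA2 : |AA k N - gam * L| ≤ ε / 2 * L := by
    refine hA.trans ?_
    gcongr
    exact min_le_left _ _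
  have hA3 : ε / (6 * (gam + 1)) * AA k N ≤ ε / 6 * L := by
    calc ε / (6 * (gam + 1)) * AA k N ≤ ε / (6 * (gam + 1)) * ((gam + 1) * L) := by gcongr
      _ = ε / 6 * L := by field_simp
  have hfin : 2 * JE θ k N (2 * T) - JE θ k N T - gam * L =
      2 * (JE θ k N (2 * T) - AA k N) - (JE θ k N T - AA k N) + (AA k N - gam * L) := by ring
  rw [hfin]
  rw [abs_le] at r1 r2 hA2 ⊢
  constructor <;> linarith [r1.1, r1.2, r2.1, r2.2, hA2.1, hA2.2]

theorem FH_of {θ : ℕ → ℝ} {k : ℝ} (hk : 0 < k) (hθ : ∀ n : ℕ, EF.FINH.Rel θ k (1 / ((n : ℝ) + 1))) : FH θ k := by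
  have hMC := vMC
  have hMER := pMER
  have hAAL := pAAL
  intro η hη ε hε
  obtain ⟨n, hn⟩ := exists_nat_one_div_lt hη
  have hn1 : 1 / ((n : ℝ) + 1) ≤ 1 := by
    rw [div_le_one (by positivity)]
    have : (0 : ℝ) ≤ n := Nat.cast_nonneg n
    linarith
  have hlim := hMER k hk
  set gam : ℝ := aF k * Real.exp (Real.eulerMascheroniConstant * k ^ 2) with hgam
  set κ : ℝ := cc k with hκ
  have hκ0 : 0 < |κ| + 1 := by positivity
  have hA1' := (hAAL k hk).1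
  have hg : 0 ≤ gam := by
    refine ge_of_tendsto hlim ?_
    filter_upwards [eventually_ge_atTop 3] with y hy
    have h1 := hA1' y
    have h2 : 0 ≤ Real.log y := Real.log_natCast_nonneg y
    positivity
  obtain ⟨N₁, T₁, hT₁, hrel⟩ := hθ n (ε / (6 * (gam + 1))) (by positivity)
  have hev : ∀ᶠ N : ℕ in atTop, |AA k N / Real.log N ^ (k ^ 2) - gam| <
      min (ε / (2 * (|κ| + 1))) 1 := by
    have := (Metric.tendsto_nhds.mp hlim) (min (ε / (2 * (|κ| + 1))) 1) (by positivity)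
    filter_upwards [this] with N hN
    rwa [Real.dist_eq] at hN
  obtain ⟨N₂, hN₂⟩ := eventually_atTop.mp hev
  refine ⟨max (max N₁ N₂) 3, T₁, ?_⟩
  intro T N hT hN hNT
  have hN1 : N₁ ≤ N := (le_max_left _ _).trans ((le_max_left _ _).trans hN)
  have hN2 : N₂ ≤ N := (le_max_right _ _).trans ((le_max_left _ _).trans hN)
  have hN3 : 3 ≤ N := (le_max_right _ _).trans hN
  have hT1 : 1 ≤ T := hT₁.trans hT
  have hT0 : 0 < T := by linarith
  have hexp : (T : ℝ) ^ (2 - η) ≤ T ^ (2 - 1 / ((n : ℝ) + 1)) :=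
    Real.rpow_le_rpow_of_exponent_le hT1 (by linarith)
  have hexp2 : (T : ℝ) ^ (2 - 1 / ((n : ℝ) + 1)) ≤ (2 * T) ^ (2 - 1 / ((n : ℝ) + 1)) :=
    Real.rpow_le_rpow hT0.le (by linarith) (by linarith)
  have r1 := hrel T N hT hN1 (hNT.trans hexp)
  have r2 := hrel (2 * T) N (by linarith) hN1 (hNT.trans (hexp.trans hexp2))
  -- the integral
  obtain ⟨B, -, -, hc, -⟩ := hMC k N hk
  have hcont : Continuous (fun t => |H θ N t| ^ (2 * k)) :=
    (hc θ).abs.rpow_const fun _ => Or.inr (by positivity)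
  have hsplit : (∫ t in T..(2 * T), |H θ N t| ^ (2 * k)) =
      (∫ t in (0:ℝ)..(2 * T), |H θ N t| ^ (2 * k)) - ∫ t in (0:ℝ)..T, |H θ N t| ^ (2 * k) :=
    (intervalIntegral.integral_interval_sub_left (hcont.intervalIntegrable _ _)
      (hcont.intervalIntegrable _ _)).symm
  have hJ : 1 / T * (∫ t in T..(2 * T), |H θ N t| ^ (2 * k)) = 2 * JH θ k N (2 * T) - JH θ k N T := by
    rw [hsplit]
    unfold JH
    field_simp
  rw [hJ]
  have hLpos : 0 < Real.log N ^ (k ^ 2) := by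
    apply Real.rpow_pos_of_pos
    apply Real.log_pos
    exact_mod_cast (by omega : 1 < N)
  set L : ℝ := Real.log N ^ (k ^ 2) with hL
  have hA : |AA k N - gam * L| ≤ min (ε / (2 * (|κ| + 1))) 1 * L := by
    have h1 := (hN₂ N hN2).le
    have h2 : AA k N - gam * L = (AA k N / L - gam) * L := by
      field_simp
    rw [h2, abs_mul, abs_of_pos hLpos]
    gcongr
  have hA1 : AA k N ≤ (gam + 1) * L := by
    have h1 := (abs_le.mp hA).2
    have h2 : min (ε / (2 * (|κ| + 1))) 1 * L ≤ 1 * L := by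
      gcongr
      exact min_le_right _ _
    linarith
  have hA0 : 0 ≤ AA k N := le_trans zero_le_one (hA1' N)
  have hA2 : |κ * (AA k N - gam * L)| ≤ ε / 2 * L := by
    rw [abs_mul]
    calc |κ| * |AA k N - gam * L| ≤ (|κ| + 1) * (ε / (2 * (|κ| + 1)) * L) := by
          refine mul_le_mul (by linarith) ?_ (abs_nonneg _) hκ0.le
          refine hA.trans ?_
          gcongr
          exact min_le_left _ _
      _ = ε / 2 * L := by field_simp
  have hA3 : ε / (6 * (gam + 1)) * AA k N ≤ ε / 6 * L := by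
    calc ε / (6 * (gam + 1)) * AA k N ≤ ε / (6 * (gam + 1)) * ((gam + 1) * L) := by gcongr
      _ = ε / 6 * L := by field_simp
  have hfin : 2 * JH θ k N (2 * T) - JH θ k N T - κ * gam * L =
      2 * (JH θ k N (2 * T) - κ * AA k N) - (JH θ k N T - κ * AA k N) +
        κ * (AA k N - gam * L) := by ring
  rw [hfin]
  rw [abs_le] at r1 r2 hA2 ⊢
  constructor <;> linarith [r1.1, r1.2, r2.1, r2.2, hA2.1, hA2.2]

/-- the product, all real orders -/
theorem vFINU (hGRK : S_GRK) (hINTK : S_INTK) : ∀ᵐ θ ∂P, ∀ k : ℝ, 0 < k → FE θ k := by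
  have h0 : ∀ n : ℕ, (0 : ℝ) < 1 / ((n : ℝ) + 1) := fun n => by positivity
  have h1 : ∀ n : ℕ, 1 / ((n : ℝ) + 1) ≤ 1 := fun n => by
    rw [div_le_one (by positivity)]
    have : (0 : ℝ) ≤ n := Nat.cast_nonneg n
    linarith
  have ha1 : ∀ n : ℕ, 1 ≤ ⌈32 / (1 / ((n : ℝ) + 1))⌉₊ := fun n => by
    rw [Nat.one_le_ceil_iff]
    have := h0 n
    positivity
  have hae : ∀ᵐ θ ∂P, ∀ n : ℕ, GK θ (1 / ((n : ℝ) + 1)) ⌈32 / (1 / ((n : ℝ) + 1))⌉₊ := by
    rw [ae_all_iff]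
    intro n
    unfold GK
    rw [ae_all_iff]
    intro κ
    by_cases hκ : 1 ≤ κ
    · filter_upwards [hGRK (1 / ((n : ℝ) + 1)) ⌈32 / (1 / ((n : ℝ) + 1))⌉₊ κ (h0 n) (h1 n) (Nat.le_ceil _) hκ] with θ hθ _
      exact hθ
    · exact Eventually.of_forall fun θ h => absurd h hκ
  filter_upwards [hae] with θ hθ k hk
  refine FE_of hk fun n => ?_
  have hINTTE := pINTTE pAAL vJME
  have hINTNE := pINTNE (pSTEP pMUL) pAAL vJME
  exact hINTNE θ k _ hk (h0 n) (h1 n) (hINTTE θ k _ _ hk (ha1 n) (h0 n) (h1 n)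
    (hINTK θ _ _ (h0 n) (h1 n) (ha1 n) (hθ n) k hk))

/-- the model with functional equation, all real orders -/
theorem vFHU (hGRK : S_GRK) (hINTK : S_INTK) (hGRMK : S_GRMK) (hINTM : S_INTM) :
    ∀ᵐ θ ∂P, ∀ k : ℝ, 0 < k → FH θ k := by
  have h0 : ∀ n : ℕ, (0 : ℝ) < 1 / ((n : ℝ) + 1) := fun n => by positivity
  have h1 : ∀ n : ℕ, 1 / ((n : ℝ) + 1) ≤ 1 := fun n => by
    rw [div_le_one (by positivity)]
    have : (0 : ℝ) ≤ n := Nat.cast_nonneg n
    linarith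
  have ha1 : ∀ n : ℕ, 1 ≤ ⌈32 / (1 / ((n : ℝ) + 1))⌉₊ := fun n => by
    rw [Nat.one_le_ceil_iff]
    have := h0 n
    positivity
  have hae : ∀ᵐ θ ∂P, ∀ n : ℕ, GK θ (1 / ((n : ℝ) + 1)) ⌈32 / (1 / ((n : ℝ) + 1))⌉₊ := by
    rw [ae_all_iff]
    intro n
    unfold GK
    rw [ae_all_iff]
    intro κ
    by_cases hκ : 1 ≤ κ
    · filter_upwards [hGRK (1 / ((n : ℝ) + 1)) ⌈32 / (1 / ((n : ℝ) + 1))⌉₊ κ (h0 n) (h1 n) (Nat.le_ceil _) hκ] with θ hθ _
      exact hθ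
    · exact Eventually.of_forall fun θ h => absurd h hκ
  have haem : ∀ᵐ θ ∂P, ∀ n : ℕ, GM θ (1 / ((n : ℝ) + 1)) ⌈32 / (1 / ((n : ℝ) + 1))⌉₊ := by
    rw [ae_all_iff]
    intro n
    unfold GM
    rw [ae_all_iff]
    intro κ
    by_cases hκ : 1 ≤ κ
    · have hm : ∀ᵐ θ ∂P, ∀ m : ℤ, m ≠ 0 → ∀ ε : ℝ, 0 < ε → ∀ᶠ j : ℕ in atTop, ∀ i : ℕ, 3 ≤ gr (1 / ((n : ℝ) + 1)) i →
          (gr (1 / ((n : ℝ) + 1)) i : ℝ) ≤ (((j : ℝ) + 1) ^ ⌈32 / (1 / ((n : ℝ) + 1))⌉₊) ^ (2 - 1 / ((n : ℝ) + 1)) →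
          ∀ l : ℕ, 1 ≤ l → l ≤ κ * (j + 1) → ‖C θ ((l : ℝ) / ((j : ℝ) + 1)) m (gr (1 / ((n : ℝ) + 1)) i)
            ((j : ℝ) ^ ⌈32 / (1 / ((n : ℝ) + 1))⌉₊)‖ ≤ ε := by
        rw [ae_all_iff]
        intro m
        by_cases hm : m = 0
        · exact Eventually.of_forall fun θ h => absurd hm h
        · filter_upwards [hGRMK (1 / ((n : ℝ) + 1)) ⌈32 / (1 / ((n : ℝ) + 1))⌉₊ κ m (h0 n) (h1 n) (Nat.le_ceil _) hκ hm]
            with θ hθ _
          exact hθ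
      filter_upwards [hm] with θ hθ _
      exact hθ
    · exact Eventually.of_forall fun θ h => absurd h hκ
  filter_upwards [hae, haem] with θ hθ hθm k hk
  refine FH_of hk fun n => ?_
  have hINTTE := pINTTE pAAL vJME
  have hJ := hINTK θ _ _ (h0 n) (h1 n) (ha1 n) (hθ n) k hk
  have hM := hINTM θ _ _ (h0 n) (h1 n) (ha1 n) (hθ n) (hθm n) k hk
  exact vINNH θ k _ hk (h0 n) (h1 n)
    (vINTH θ k _ _ hk (ha1 n) (h0 n) (h1 n) (pJHU θ k _ _ hk (h0 n) (h1 n) (ha1 n) hJ hM))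
    (hINTTE θ k _ _ hk (ha1 n) (h0 n) (h1 n) hJ)

end Pool.Agent.T2H98.UK
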