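import Pool.Agent.T2H98.UK.Stm

/-! Project UK, package JHU: the deterministic part of EF/JHG. -/

set_option autoImplicit false

open MeasureTheory Filter Topology Finset

namespace Pool.Agent.T2H98.UK

open Pool.Agent.T2H98.RT (P tw pMUL pAE)
open Pool.Agent.T2H98.EP (pr zp EU JE AA MK cK gr pAAL)
open Pool.Agent.T2H98.EF (H JH cc pw C pTRIG vMC)
open Pool.Agent.T2H98.EF.JHG
open Pool.Agent.H306R2 (lc dv aF)

theorem pJHU : S_JHU := by
  intro θ k η a hk hη hη1 ha1 h1 h2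
  have hTRIG := pTRIG
  have hMC := vMC
  have hAAL := pAAL
  intro ε hε
  obtain ⟨M, g, hg, hg0⟩ := hTRIG k (ε / 12) hk (by positivity)
  set G : ℝ := ∑ m ∈ (Icc (-(M : ℤ)) M).erase 0, ‖g m‖ with hGdef
  have hG : 0 ≤ G := Finset.sum_nonneg fun _ _ => norm_nonneg _
  set e3 : ℝ := ε / (3 * (G + 1)) with he3
  have he3p : 0 < e3 := by positivity
  have hG3 : G * e3 ≤ ε / 3 := by
    rw [he3, ← mul_div_assoc, div_le_div_iff₀ (by positivity) (by norm_num)]
    nlinarith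
  set e2 : ℝ := min 1 (ε / (3 * (|cc k| + 1))) with he2
  have he2p : 0 < e2 := lt_min one_pos (by positivity)
  have he2' : |cc k| * e2 ≤ ε / 3 := by
    have h5 : |cc k| * e2 ≤ |cc k| * (ε / (3 * (|cc k| + 1))) :=
      mul_le_mul_of_nonneg_left (min_le_right _ _) (abs_nonneg _)
    refine h5.trans ?_
    rw [← mul_div_assoc, div_le_div_iff₀ (by positivity) (by norm_num)]
    nlinarith [abs_nonneg (cc k)]
  have hev : ∀ᶠ j : ℕ in atTop, ∀ m ∈ (Icc (-(M : ℤ)) M).erase 0, ∀ i : ℕ, 3 ≤ gr η i →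
      (gr η i : ℝ) ≤ (((j : ℝ) + 1) ^ a) ^ (2 - η) → ‖C θ k m (gr η i) ((j : ℝ) ^ a)‖ ≤ e3 := by
    rw [Filter.eventually_all_finset]
    intro m hm
    exact h2 m (Finset.ne_of_mem_erase hm) e3 he3p
  filter_upwards [h1 e2 he2p, hev, eventually_gt_atTop 0] with j hj1 hj2 hj0 i hi3 hi
  have hT : (0 : ℝ) < (j : ℝ) ^ a := by
    have : (0 : ℝ) < j := by exact_mod_cast hj0
    positivity
  have hJE0 : 0 ≤ JE θ k (gr η i) ((j : ℝ) ^ a) := by
    unfold JE
    refine mul_nonneg (by positivity) ?_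
    exact intervalIntegral.integral_nonneg hT.le fun t _ => by positivity
  have hap := approx hMC θ k hk (gr η i) ((j : ℝ) ^ a) hT (ε / 12) M g hg
  have h0 : (0 : ℤ) ∈ Icc (-(M : ℤ)) (M : ℤ) := by
    rw [Finset.mem_Icc]
    constructor <;> simp
  rw [← Finset.add_sum_erase _ _ h0, C_zero] at hap
  refine arith _ _ (AA k (gr η i)) (cc k) ε (ε / 12) e2 e3 G (g 0) _ hε ((hAAL k hk).1 _) hJE0 rfl
    he3p hG hG3 (min_le_left _ _) he2' hap hg0 ?_ (hj1 i hi3 hi)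
  refine (norm_sum_le _ _).trans ?_
  rw [hGdef, Finset.sum_mul]
  refine Finset.sum_le_sum fun m hm => ?_
  rw [norm_mul]
  exact mul_le_mul_of_nonneg_left (hj2 m hm i hi3 hi) (norm_nonneg _)

end Pool.Agent.T2H98.UK
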