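import Pool.Agent.T2H98.EF.All

/-!
# Additions to EP, EF (helper98): MP_973905_nt, one null set for all real orders `k > 0`

TARGET: for almost all `θ`, for ALL real `k > 0` (EP, EF have the null set depending on `k`). Proof: Borel-Cantelli at
`T = j^a` also over the orders `l/(j+1)`, `1 ≤ l ≤ κ(j+1)` (the variances are uniform in `k ≤ κ` and have a power of `T` to
spare), and interpolation between `k' = ⌊k(j+1)⌋/(j+1)` and `k`: `| |EU|^{2k} - |EU|^{2k'} | ≤ C (k-k') (1 + |EU|^{2M})`.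

Everything of RT, EP, RS, EF is proved; `import Pool.Agent.T2H98.EF.All` gives `EP.vJME, EP.vVARL, EP.vQSE, EP.pAAL, EP.pMER,
EP.pINTTE, EP.pINTNE, RT.pMUL, RT.pAE, RT.pOR, EF.vVARM, EF.vMC, EF.pTRIG, ...`: use them freely.
File `Pool/Agent/T2H98/UK/<ID>.lean`: `import Pool.Agent.T2H98.UK.Stm`, `namespace Pool.Agent.T2H98.UK`,
`theorem p<ID> : S_<ID>` (hypotheses `(h : S_dep)` for Deps in this file).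
-/

set_option autoImplicit false

open MeasureTheory Filter Topology Finset

namespace Pool.Agent.T2H98.UK

open Pool.Agent.T2H98.RT (P tw QS)
open Pool.Agent.T2H98.EP (pr zp EU JE AA MK cK gr)
open Pool.Agent.T2H98.EF (H JH cc pw C)
open Pool.Agent.H306R2 (lc dv aF)

/-- QSU (10 min, no Deps). `EP/QSE.lean` with `hQR k κ` (`pQR pSUB`) for all `k ≤ κ` at once: the bound there only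
depends on `κ`. -/
def S_QSU : Prop := ∀ κ : ℝ, 1 ≤ κ → ∃ B : ℝ, 0 < B ∧ ∀ (k : ℝ) (y K : ℕ), 0 < k → k ≤ κ → 3 ≤ y →
  QS (cK k y K) (MK y K) ≤ B * Real.log y ^ B

/-- GRK (25 min, Deps: QSU). `EF/GRE2.lean` with `a ≥ 32/η` (so that `∑_i v ≤ C/(j+1)^4`, see `EP.GRE.bound`) and the second
index `n = Nat.pair i l` (`F j` the image of `FF η a j ×ˢ Icc 1 (κ (j+1))`): `κ (j+1) · C/(j+1)^4` is summable. -/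
def S_GRK : Prop := ∀ (η : ℝ) (a κ : ℕ), 0 < η → η ≤ 1 → 32 / η ≤ a → 1 ≤ κ → ∀ᵐ θ ∂P,
  ∀ ε : ℝ, 0 < ε → ∀ᶠ j : ℕ in atTop, ∀ i : ℕ, 3 ≤ gr η i → (gr η i : ℝ) ≤ (((j : ℝ) + 1) ^ a) ^ (2 - η) →
    ∀ l : ℕ, 1 ≤ l → l ≤ κ * (j + 1) →
    |JE θ ((l : ℝ) / ((j : ℝ) + 1)) (gr η i) ((j : ℝ) ^ a) - AA ((l : ℝ) / ((j : ℝ) + 1)) (gr η i)| ≤ ε

/-- the pointwise interpolation inequality -/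
def PW (k B : ℝ) (M : ℕ) : Prop := ∀ x k' : ℝ, 0 < x → k / 2 ≤ k' → k' ≤ k →
  |x ^ (2 * k) - x ^ (2 * k')| ≤ B * (k - k') * (1 + x ^ (2 * (M : ℝ)))

/-- PWK (15 min, no Deps). `x ≥ 1`: `≤ 2(k-k') (log x) x^{2k} ≤ 2(k-k') x^{2k+1}`; `x < 1`: `≤ 2(k-k') |log x| x^{2k'}
≤ 2(k-k') |log x| x^k ≤ 2(k-k')/k`. So `B = 2 + 2/k`, `M = ⌈k⌉ + 1`. -/
def S_PWK : Prop := ∀ k : ℝ, 0 < k → ∃ (B : ℝ) (M : ℕ), 0 < B ∧ 1 ≤ M ∧ PW k B M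

/-- MEL (15 min, no Deps). `|∫ JE - AA| ≤ (∫ (JE - AA)²)^{1/2} ≤ (2B/T)^{1/2}` by `EP.vVARL`, `EP.vQSE` (`P` is a probability
measure, `JE` continuous and bounded: `EP.vJME`). -/
def S_MEL : Prop := ∀ (k : ℝ) (y : ℕ), 0 < k → 3 ≤ y → Tendsto (fun T : ℝ => ∫ θ, JE θ k y T ∂P) atTop (𝓝 (AA k y))

/-- JEK (10 min, no Deps). Integrate `PW` (`x = ‖EU θ y t‖ > 0`; continuity: `EP.vJME`), also for the harmonics `C`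
(`‖pw k m w - pw k' m w‖ = | ‖w‖^{2k} - ‖w‖^{2k'} |` for `w ≠ 0`; `EF.vMC`). -/
def S_JEK : Prop := ∀ (k B : ℝ) (M : ℕ), 0 < k → 0 < B → 1 ≤ M → PW k B M → ∀ (θ : ℕ → ℝ) (k' T : ℝ) (y : ℕ),
  0 < T → k / 2 ≤ k' → k' ≤ k →
  |JE θ k y T - JE θ k' y T| ≤ B * (k - k') * (1 + JE θ M y T) ∧
  ∀ m : ℤ, ‖C θ k m y T - C θ k' m y T‖ ≤ B * (k - k') * (1 + JE θ M y T)

/-- AAK (10 min, Deps: MEL, JEK). Integrate JEK over `θ` and let `T → ∞`. -/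
def S_AAK : Prop := ∀ (k B : ℝ) (M : ℕ), 0 < k → 0 < B → 1 ≤ M → PW k B M → ∀ (k' : ℝ) (y : ℕ),
  3 ≤ y → k / 2 ≤ k' → k' ≤ k → |AA k y - AA k' y| ≤ B * (k - k') * (1 + AA M y)

/-- the statement on the grid of `T`, `y`, `k` -/
def GK (θ : ℕ → ℝ) (η : ℝ) (a : ℕ) : Prop := ∀ κ : ℕ, 1 ≤ κ →
  ∀ ε : ℝ, 0 < ε → ∀ᶠ j : ℕ in atTop, ∀ i : ℕ, 3 ≤ gr η i → (gr η i : ℝ) ≤ (((j : ℝ) + 1) ^ a) ^ (2 - η) →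
    ∀ l : ℕ, 1 ≤ l → l ≤ κ * (j + 1) →
    |JE θ ((l : ℝ) / ((j : ℝ) + 1)) (gr η i) ((j : ℝ) ^ a) - AA ((l : ℝ) / ((j : ℝ) + 1)) (gr η i)| ≤ ε

/-- the same for the harmonics -/
def GM (θ : ℕ → ℝ) (η : ℝ) (a : ℕ) : Prop := ∀ κ : ℕ, 1 ≤ κ → ∀ m : ℤ, m ≠ 0 →
  ∀ ε : ℝ, 0 < ε → ∀ᶠ j : ℕ in atTop, ∀ i : ℕ, 3 ≤ gr η i → (gr η i : ℝ) ≤ (((j : ℝ) + 1) ^ a) ^ (2 - η) →
    ∀ l : ℕ, 1 ≤ l → l ≤ κ * (j + 1) → ‖C θ ((l : ℝ) / ((j : ℝ) + 1)) m (gr η i) ((j : ℝ) ^ a)‖ ≤ ε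

/-- SML (10 min, no Deps). `AA M y ≤ C y^{1/(4a)}` (`EF.GRM.AA_bound` with `η := 4/a`) and `y ≤ ((j+1)^a)^2`. -/
def S_SML : Prop := ∀ (M a : ℕ) (η : ℝ), 1 ≤ M → 1 ≤ a → 0 < η → η ≤ 1 → ∀ ε : ℝ, 0 < ε → ∀ᶠ j : ℕ in atTop, ∀ i : ℕ,
  3 ≤ gr η i → (gr η i : ℝ) ≤ (((j : ℝ) + 1) ^ a) ^ (2 - η) → (2 + AA M (gr η i)) / ((j : ℝ) + 1) ≤ ε

/-- INTK (20 min, Deps: PWK, JEK, AAK, SML). `l = ⌊k(j+1)⌋`, `k' = l/(j+1)`, `k - k' ≤ 1/(j+1)`; `JE M ≤ AA M + 1` by `GK` with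
`l = M(j+1)`. -/
def S_INTK : Prop := ∀ (θ : ℕ → ℝ) (η : ℝ) (a : ℕ), 0 < η → η ≤ 1 → 1 ≤ a → GK θ η a → ∀ k : ℝ, 0 < k →
  ∀ ε : ℝ, 0 < ε → ∀ᶠ j : ℕ in atTop, ∀ i : ℕ, 3 ≤ gr η i → (gr η i : ℝ) ≤ (((j : ℝ) + 1) ^ a) ^ (2 - η) →
    |JE θ k (gr η i) ((j : ℝ) ^ a) - AA k (gr η i)| ≤ ε

/-- INTM (20 min, Deps: PWK, JEK, SML). The same for the harmonics. -/
def S_INTM : Prop := ∀ (θ : ℕ → ℝ) (η : ℝ) (a : ℕ), 0 < η → η ≤ 1 → 1 ≤ a → GK θ η a → GM θ η a → ∀ k : ℝ, 0 < k →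
  ∀ m : ℤ, m ≠ 0 → ∀ ε : ℝ, 0 < ε → ∀ᶠ j : ℕ in atTop, ∀ i : ℕ, 3 ≤ gr η i →
    (gr η i : ℝ) ≤ (((j : ℝ) + 1) ^ a) ^ (2 - η) → ‖C θ k m (gr η i) ((j : ℝ) ^ a)‖ ≤ ε

/-- AAMON (10 min, no Deps). Termwise: `0 ≤ lc k m ≤ lc κ m`. -/
def S_AAMON : Prop := ∀ (k κ : ℝ) (y : ℕ), 0 < k → k ≤ κ → AA k y ≤ AA κ y

/-- GRMK (25 min, Deps: AAMON). `EF/GRM.lean` with `a ≥ 32/η` and the index `n = Nat.pair i l` as in GRK;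
`AA(|k+m|+|k-m|) ≤ AA(2κ+2|m|)` for `k ≤ κ`. -/
def S_GRMK : Prop := ∀ (η : ℝ) (a κ : ℕ) (m : ℤ), 0 < η → η ≤ 1 → 32 / η ≤ a → 1 ≤ κ → m ≠ 0 → ∀ᵐ θ ∂P,
  ∀ ε : ℝ, 0 < ε → ∀ᶠ j : ℕ in atTop, ∀ i : ℕ, 3 ≤ gr η i → (gr η i : ℝ) ≤ (((j : ℝ) + 1) ^ a) ^ (2 - η) →
    ∀ l : ℕ, 1 ≤ l → l ≤ κ * (j + 1) → ‖C θ ((l : ℝ) / ((j : ℝ) + 1)) m (gr η i) ((j : ℝ) ^ a)‖ ≤ ε

/-- JHU (10 min, no Deps; helper98). The deterministic part of `EF/JHG.lean`. -/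
def S_JHU : Prop := ∀ (θ : ℕ → ℝ) (k η : ℝ) (a : ℕ), 0 < k → 0 < η → η ≤ 1 → 1 ≤ a →
  (∀ ε : ℝ, 0 < ε → ∀ᶠ j : ℕ in atTop, ∀ i : ℕ, 3 ≤ gr η i → (gr η i : ℝ) ≤ (((j : ℝ) + 1) ^ a) ^ (2 - η) →
    |JE θ k (gr η i) ((j : ℝ) ^ a) - AA k (gr η i)| ≤ ε) →
  (∀ m : ℤ, m ≠ 0 → ∀ ε : ℝ, 0 < ε → ∀ᶠ j : ℕ in atTop, ∀ i : ℕ, 3 ≤ gr η i →
    (gr η i : ℝ) ≤ (((j : ℝ) + 1) ^ a) ^ (2 - η) → ‖C θ k m (gr η i) ((j : ℝ) ^ a)‖ ≤ ε) →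
  ∀ ε : ℝ, 0 < ε → ∀ᶠ j : ℕ in atTop, ∀ i : ℕ, 3 ≤ gr η i → (gr η i : ℝ) ≤ (((j : ℝ) + 1) ^ a) ^ (2 - η) →
    |JH θ k (gr η i) ((j : ℝ) ^ a) - cc k * AA k (gr η i)| ≤ ε * AA k (gr η i)

end Pool.Agent.T2H98.UK
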